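import Pool.Agent.Q292.LC.Stm7
import Pool.Agent.Q68.LC.Bas2
import Pool.Agent.Q68.LC.Grn

/-! Project LC (helper292), lemma job ENG. -/

set_option autoImplicit false

namespace Pool.Agent.Q229.LC.Eng

open Finset Matrix Q292.LC

section

variable {V : Type} [Fintype V] [DecidableEq V]

theorem res_apply (T : Matrix V V ℝ) (w : ℝ) (U : Finset V) (f : V → ℝ) (x : V) :
    ((1 - w • (dg U * T)) *ᵥ f) x = f x - w * (if x ∈ U then (T *ᵥ f) x else 0) := by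
  rw [Matrix.sub_mulVec, Matrix.one_mulVec, Matrix.smul_mulVec, ← Matrix.mulVec_mulVec]
  unfold dg
  rw [Pi.sub_apply, Pi.smul_apply, Matrix.mulVec_diagonal, smul_eq_mul]
  split_ifs <;> ring

/-- linear algebra -/
theorem eng_aux (T : Matrix V V ℝ) (hrow : ∀ x, ∑ y, T x y = 1)
    (hcol : ∀ y, ∑ x, T x y = 1) (h0 : ∀ x y, 0 ≤ T x y) (w Λ : ℝ) (A : Finset V) (φ : V → ℝ)
    (hw : 1 / 2 ≤ w) (hw1 : w < 1) (hΛ : 0 ≤ Λ) (hdet : 0 < (1 - w • (dg (univ \ A) * T)).det)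
    (hφ : ∀ a ∈ A, φ a = 0)
    (hyp : ∀ f : V → ℝ, (φ ⬝ᵥ f) ^ 2 ≤ Λ * ∑ x, ∑ y, T x y * (f x - f y) ^ 2) :
    φ ⬝ᵥ ((1 - w • (dg (univ \ A) * T))⁻¹ *ᵥ φ) ≤ 4 * Λ := by
  set M := 1 - w • (dg (univ \ A) * T) with hM
  set f := M⁻¹ *ᵥ φ with hf
  have hMf : M *ᵥ f = φ := by
    rw [hf, Matrix.mulVec_mulVec, Matrix.mul_nonsing_inv M (isUnit_iff_ne_zero.2 hdet.ne'),
      Matrix.one_mulVec]
  have hval : ∀ x, φ x = f x - w * (if x ∈ univ \ A then (T *ᵥ f) x else 0) := by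
    intro x
    rw [← res_apply T w (univ \ A) f x, ← hM, hMf]
  have hfA : ∀ a ∈ A, f a = 0 := by
    intro a ha
    have h1 := hval a
    rw [if_neg (by simp [ha]), mul_zero, sub_zero, hφ a ha] at h1
    exact h1.symm
  have hX : φ ⬝ᵥ f = ∑ x, f x ^ 2 - w * ∑ x, ∑ y, T x y * f x * f y := by
    have h1 : φ ⬝ᵥ f = ∑ x, (f x ^ 2 - w * ∑ y, T x y * f x * f y) := by
      unfold dotProduct
      refine Finset.sum_congr rfl fun x _ => ?_
      by_cases hx : x ∈ A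
      · rw [hfA x hx]
        simp
      · rw [hval x, if_pos (by simp [hx])]
        have h2 : (T *ᵥ f) x = ∑ y, T x y * f y := rfl
        have h3 : ∑ y, T x y * f x * f y = f x * ∑ y, T x y * f y := by
          rw [Finset.mul_sum]
          refine Finset.sum_congr rfl fun y _ => ?_
          ring
        rw [h2, h3]
        ring
    rw [h1, Finset.sum_sub_distrib, Finset.mul_sum]
  have hE : ∑ x, ∑ y, T x y * (f x - f y) ^ 2 =
      2 * ∑ x, f x ^ 2 - 2 * ∑ x, ∑ y, T x y * f x * f y := by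
    have h1 : ∀ x y, T x y * (f x - f y) ^ 2 =
        T x y * f x ^ 2 + T x y * f y ^ 2 - 2 * (T x y * f x * f y) := fun x y => by ring
    simp only [h1, Finset.sum_sub_distrib, Finset.sum_add_distrib, ← Finset.mul_sum]
    have h2 : ∑ x, ∑ y, T x y * f x ^ 2 = ∑ x, f x ^ 2 := by
      refine Finset.sum_congr rfl fun x _ => ?_
      rw [← Finset.sum_mul, hrow, one_mul]
    have h3 : ∑ x, ∑ y, T x y * f y ^ 2 = ∑ x, f x ^ 2 := by
      rw [Finset.sum_comm]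
      refine Finset.sum_congr rfl fun x _ => ?_
      rw [← Finset.sum_mul, hcol, one_mul]
    rw [h2, h3]
    ring
  have hE0 : 0 ≤ ∑ x, ∑ y, T x y * (f x - f y) ^ 2 :=
    Finset.sum_nonneg fun x _ => Finset.sum_nonneg fun y _ => mul_nonneg (h0 x y) (sq_nonneg _)
  have hs0 : 0 ≤ ∑ x, f x ^ 2 := Finset.sum_nonneg fun x _ => sq_nonneg _
  have hyp' := hyp f
  set X := φ ⬝ᵥ f with hXd
  set En := ∑ x, ∑ y, T x y * (f x - f y) ^ 2 with hEd
  have h1 : X = (1 - w) * ∑ x, f x ^ 2 + w / 2 * En := by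
    rw [hX, hE]
    ring
  have h2 : En / 4 ≤ X := by
    rw [h1]
    have a1 : 0 ≤ (1 - w) * ∑ x, f x ^ 2 := mul_nonneg (by linarith) hs0
    nlinarith
  have h3 : X ^ 2 ≤ 4 * Λ * X := by
    refine hyp'.trans ?_
    nlinarith
  by_contra hcon
  push Not at hcon
  have h4 : 0 < X := by linarith
  nlinarith

end

/-- job ENG -/
theorem eng : S_ENG := by
  intro V _ _ e ω A n δ w Λ φ hδ0 hδ1 hw hw1 hΛ hφ hyp
  obtain ⟨h0, hrow, hcol, _⟩ := Pool.Agent.Q68.LC.bas2 V e ω A δ hδ0 hδ1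
  refine eng_aux (TT e ω A δ n) (hrow n) (hcol n) (h0 n) w Λ A φ hw hw1 hΛ ?_ hφ hyp
  by_cases hne : Nonempty V
  · obtain ⟨x⟩ := hne
    exact (Pool.Agent.Q68.LC.grn V (TT e ω A δ n) w 0 (univ \ A) x x (h0 n)
      (fun a => (hrow n a).le) (by linarith) hw1).1
  · have : IsEmpty V := not_nonempty_iff.1 hne
    rw [Matrix.det_isEmpty]
    exact one_pos

end Pool.Agent.Q229.LC.Eng
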