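import Pool.Agent.H622R2.MatGraph
import Pool.Agent.NPC.Defs

/-!
# Locating-dominating coalitions: definitions
-/

set_option autoImplicit false

namespace Q229.LC

open Pool.Agent.H622R2

/-- `D` is a locating-dominating set. -/
def LDSet {V : Type} (G : SimpleGraph V) (D : Set V) : Prop :=
  (∀ v, v ∉ D → ∃ w ∈ D, G.Adj v w) ∧
    ∀ u v, u ∉ D → v ∉ D → u ≠ v → G.neighborSet u ∩ D ≠ G.neighborSet v ∩ D

/-- `X` and `Y` form an LD-coalition. -/
def LDCoalition {V : Type} (G : SimpleGraph V) (X Y : Set V) : Prop :=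
  Disjoint X Y ∧ ¬ LDSet G X ∧ ¬ LDSet G Y ∧ LDSet G (X ∪ Y)

/-- `P` is an LDC-partition: a partition of the vertex set, no part is an LD-set and each part forms
an LD-coalition with another part. -/
def LDCPartition {V : Type} (G : SimpleGraph V) (P : Set (Set V)) : Prop :=
  Setoid.IsPartition P ∧ (∀ X ∈ P, ¬ LDSet G X) ∧ ∀ X ∈ P, ∃ Y ∈ P, Y ≠ X ∧ LDCoalition G X Y

/-- The locating-dominating coalition number: the maximum number of parts of an LDC-partition
(`0` if there is none). -/
noncomputable def CL {V : Type} (G : SimpleGraph V) : ℕ :=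
  sSup {m | ∃ P : Set (Set V), LDCPartition G P ∧ P.ncard = m}

/-- The decision problem LDC: given (the adjacency matrix of) a connected graph and a number `k`, is
`C_L ≥ k`? -/
def LDC (I : List (List Bool) × ℕ) : Prop := (matGraph I.1).Connected ∧ I.2 ≤ CL (matGraph I.1)

/-- The same problem for a fixed number `k`. -/
def LDCk (k : ℕ) (M : List (List Bool)) : Prop := (matGraph M).Connected ∧ k ≤ CL (matGraph M)

end Q229.LC
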