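import Pool.Agent.Q229.LC.HK
import Pool.Agent.Q68.LC.Bas2

/-! Project LC (helper292), lemma job FRE. -/

set_option autoImplicit false

namespace Pool.Agent.Q229.LC.Fre

open Finset Matrix Q292.LC
open Pool.Agent.Y998.ST (rc lam gk nnRate qq hk)
open Pool.Agent.Q229.LC.HK

section walk

variable {V : Type} [Fintype V] [DecidableEq V]

theorem Mx_free (e : ℕ → V × V) (δ : ℝ) (k : ℕ) :
    Mx e (fun _ => false) ∅ δ k = fr δ (e k) := by
  unfold Mx
  rw [if_neg]
  rintro ⟨a, ha, _⟩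
  exact absurd ha (Finset.notMem_empty a)

theorem PP_succ (e : ℕ → V × V) (δ : ℝ) (k : ℕ) : PP e δ (k + 1) = PP e δ k * fr δ (e k) := by
  unfold PP
  rw [← Mx_free]
  rfl

theorem PP_nonneg (e : ℕ → V × V) {δ : ℝ} (h0 : 0 ≤ δ) (h1 : δ ≤ 1) (k : ℕ) (x y : V) :
    0 ≤ PP e δ k x y :=
  (Pool.Agent.Q68.LC.bas2 V e (fun _ => false) ∅ δ h0 h1).1 k x y

theorem fr_nonneg {δ : ℝ} (h0 : 0 ≤ δ) (h1 : δ ≤ 1) (p : V × V) (x y : V) :
    0 ≤ fr δ p x y := by
  unfold fr pm
  rw [Matrix.add_apply, Matrix.smul_apply, Matrix.smul_apply, Matrix.one_apply, Matrix.of_apply]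
  simp only [smul_eq_mul]
  have : 0 ≤ 1 - δ := by linarith
  split_ifs <;> positivity

theorem fr_diag {δ : ℝ} (h0 : 0 ≤ δ) (p : V × V) (x : V) : 1 - δ ≤ fr δ p x x := by
  unfold fr pm
  rw [Matrix.add_apply, Matrix.smul_apply, Matrix.smul_apply, Matrix.one_apply_eq,
    Matrix.of_apply]
  simp only [smul_eq_mul, mul_one]
  split_ifs
  · linarith
  · linarith

theorem PP_step (e : ℕ → V × V) {δ : ℝ} (h0 : 0 ≤ δ) (h1 : δ ≤ 1) (k : ℕ) (x y : V) :
    PP e δ k x y * (1 - δ) ≤ PP e δ (k + 1) x y := by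
  rw [PP_succ, Matrix.mul_apply]
  calc PP e δ k x y * (1 - δ) ≤ PP e δ k x y * fr δ (e k) y y :=
        mul_le_mul_of_nonneg_left (fr_diag h0 _ _) (PP_nonneg e h0 h1 k x y)
    _ ≤ ∑ z, PP e δ k x z * fr δ (e k) z y :=
        Finset.single_le_sum (f := fun z => PP e δ k x z * fr δ (e k) z y)
          (fun z _ => mul_nonneg (PP_nonneg e h0 h1 k x z) (fr_nonneg h0 h1 _ _ _))
          (Finset.mem_univ y)

theorem PP_steps (e : ℕ → V × V) {δ : ℝ} (h0 : 0 ≤ δ) (h1 : δ ≤ 1) (k : ℕ) (x y : V) (j : ℕ) :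
    PP e δ k x y * (1 - δ) ^ j ≤ PP e δ (k + j) x y := by
  induction j with
  | zero => simp
  | succ j ih =>
    rw [pow_succ, ← mul_assoc]
    refine (mul_le_mul_of_nonneg_right ih (by linarith)).trans ?_
    exact PP_step e h0 h1 (k + j) x y

end walk

section kernel

variable {d L : ℕ} [NeZero L]

theorem qq_symm (hL : 3 ≤ L) (t : ℝ) (x y : Fin d → ZMod L) :
    qq (nnRate d L) t x y = qq (nnRate d L) t y x := by
  rw [Pool.Agent.Y998.ST.qq_eq_hk hL]
  unfold hk
  refine Finset.prod_congr rfl fun i _ => ?_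
  rw [← gk_even, neg_sub]

theorem td_symm (x y : Fin d → ZMod L) : td x y = td y x := by
  unfold td
  refine Finset.sum_congr rfl fun i _ => ?_
  rw [← ZMod.natAbs_valMinAbs_neg, neg_sub]

theorem td_le (x y : Fin d → ZMod L) : td x y ≤ d * L := by
  unfold td
  calc ∑ i, (x i - y i).valMinAbs.natAbs ≤ ∑ _i : Fin d, L :=
        Finset.sum_le_sum fun i _ =>
          (ZMod.natAbs_valMinAbs_le (x i - y i)).trans (Nat.div_le_self _ _)
    _ = d * L := by rw [Finset.sum_const, Finset.card_univ, Fintype.card_fin, smul_eq_mul]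

theorem qq_le_one (t : ℝ) (ht : 0 ≤ t) (x y : Fin d → ZMod L) :
    qq (nnRate d L) t x y ≤ 1 := by
  rw [← Pool.Agent.Y998.ST.qq_row (nnRate d L) t x]
  exact Finset.single_le_sum (f := fun y => qq (nnRate d L) t x y)
    (fun z _ => Pool.Agent.Y998.ST.qq_nonneg Pool.Agent.Y998.ST.nn_nonneg ht x z)
    (Finset.mem_univ y)

/-- upper bound of the kernel for all times -/
theorem qq_upper (hL : 3 ≤ L) (t : ℝ) (ht : 0 ≤ t) (x y : Fin d → ZMod L) :
    qq (nnRate d L) t x y ≤ 4 ^ d * ((1 + t) ^ (-(d / 2 : ℝ)) + 1 / (L : ℝ) ^ d) := by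
  have hL0 : (0 : ℝ) < L := by exact_mod_cast Nat.pos_of_ne_zero (NeZero.ne L)
  have hp : 0 < (1 + t) ^ (-(d / 2 : ℝ)) := Real.rpow_pos_of_pos (by linarith) _
  have hpow : (1 + t) ^ (-(d / 2 : ℝ)) = 1 / Real.sqrt (1 + t) ^ d := by
    rw [Real.sqrt_eq_rpow, ← Real.rpow_natCast, ← Real.rpow_mul (by linarith),
      Real.rpow_neg (by linarith), one_div]
    congr 2
    ring
  by_cases h1 : t < 1
  · have h2 : (1 : ℝ) ≤ 4 ^ d * (1 + t) ^ (-(d / 2 : ℝ)) := by
      rw [hpow, mul_one_div, le_div_iff₀ (by positivity), one_mul]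
      refine pow_le_pow_left₀ (Real.sqrt_nonneg _) ?_ d
      rw [Real.sqrt_le_left (by norm_num)]
      linarith
    have h3 : (0 : ℝ) ≤ 4 ^ d * (1 / (L : ℝ) ^ d) := by positivity
    have h4 := qq_le_one t ht x y
    rw [mul_add]
    linarith
  · push Not at h1
    have hs0 : 0 < Real.sqrt t := Real.sqrt_pos.2 (by linarith)
    refine (Pool.Agent.Y998.ST.qq_torus hL (by linarith) x y).trans ?_
    have h2 : 1 / Real.sqrt t ≤ 2 / Real.sqrt (1 + t) := by
      rw [div_le_div_iff₀ hs0 (Real.sqrt_pos.2 (by linarith)), one_mul]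
      have h3 : (2 : ℝ) = Real.sqrt 4 := by
        rw [show (4 : ℝ) = 2 ^ 2 by norm_num, Real.sqrt_sq (by norm_num)]
      rw [h3, ← Real.sqrt_mul (by norm_num)]
      exact Real.sqrt_le_sqrt (by linarith)
    set a : ℝ := 1 / (L : ℝ) with ha
    set b : ℝ := 1 / Real.sqrt (1 + t) with hb
    have ha0 : 0 < a := by positivity
    have hb0 : 0 < b := by
      have : 0 < Real.sqrt (1 + t) := Real.sqrt_pos.2 (by linarith)
      positivity
    have e1 : (1 + t) ^ (-(d / 2 : ℝ)) = b ^ d := by rw [hpow, hb, div_pow, one_pow]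
    have e2 : 1 / (L : ℝ) ^ d = a ^ d := by rw [ha, div_pow, one_pow]
    rw [e1, e2]
    have h3 : a + 1 / Real.sqrt t ≤ 4 * max a b := by
      have h4 : 2 / Real.sqrt (1 + t) = 2 * b := by rw [hb]; ring
      rw [h4] at h2
      have := le_max_left a b
      have := le_max_right a b
      linarith
    calc (a + 1 / Real.sqrt t) ^ d ≤ (4 * max a b) ^ d :=
          pow_le_pow_left₀ (by positivity) h3 d
      _ = 4 ^ d * max a b ^ d := mul_pow _ _ _
      _ ≤ 4 ^ d * (b ^ d + a ^ d) := by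
          refine mul_le_mul_of_nonneg_left ?_ (by positivity)
          have := pow_pos ha0 d
          have := pow_pos hb0 d
          rcases max_cases a b with ⟨h, _⟩ | ⟨h, _⟩ <;> rw [h] <;> linarith

end kernel

/-- job FRE -/
theorem fre (hT : S_TRO) : S_FRE := by
  intro d hd
  obtain ⟨C₁, hC₁, h1⟩ := hkt d hd
  obtain ⟨C₂, hC₂, h2⟩ := hkl d hd
  -- the constant
  set C : ℝ := 4 ^ d + 1 + (2 * C₁ + 2) + 2 * 2 ^ d * C₂ with hC
  have h4d : (1 : ℝ) ≤ 4 ^ d := one_le_pow₀ (by norm_num)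
  have h2d : (1 : ℝ) ≤ 2 ^ d := one_le_pow₀ (by norm_num)
  have hC2' : C₂ ≤ 2 * 2 ^ d * C₂ := by nlinarith
  have hC2p : 0 < C₂ := by linarith
  have hC1p : 0 < C₁ := by linarith
  have hC1le : 1 ≤ C := by
    rw [hC]
    have : 0 ≤ 2 * 2 ^ d * C₂ := by positivity
    linarith
  refine ⟨C, hC1le, ?_⟩
  intro L _ hL K
  have hL0 : (0 : ℝ) < L := by exact_mod_cast Nat.pos_of_ne_zero (NeZero.ne L)
  obtain ⟨C₀, h0⟩ := hT d L hd hL K
  -- the errors
  have hC0 : 0 ≤ |C₀| := abs_nonneg _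
  set B : ℝ := |C₀| * ((L : ℝ) ^ d * Real.exp (d * L) + (L : ℝ) ^ d +
    2 * 2 ^ d * C₂ * (L : ℝ) ^ d) with hB
  obtain ⟨q₁, hq₁⟩ := exists_nat_ge B
  refine ⟨q₁ + 4 * ms d L + 2, ?_⟩
  intro q hq σ hσ δ hδ1 hδ2
  have hq0 : (0 : ℝ) < q := by
    have : 0 < q := by omega
    exact_mod_cast this
  have hδ0 : 0 < δ := by
    by_contra hcon
    push Not at hcon
    nlinarith
  have hqB : B ≤ q := by
    have : q₁ ≤ q := by omega
    have : (q₁ : ℝ) ≤ q := by exact_mod_cast this
    linarith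
  have hq4 : (4 * ms d L + 2 : ℝ) ≤ q := by
    have : 4 * ms d L + 2 ≤ q := by omega
    exact_mod_cast this
  have hδle : δ * (4 * ms d L + 2) ≤ 2 := by nlinarith
  have hδone : δ ≤ 1 := by
    have : (0 : ℝ) ≤ ms d L := Nat.cast_nonneg _
    nlinarith
  have hmsδ : δ * ms d L ≤ 1 / 2 := by nlinarith
  have herr : ∀ s ≤ K * q, ∀ x y, |PP (ed ∘ σ) δ (s * ms d L) x y -
      qq (nnRate d L) (s * δ) x y| ≤ |C₀| / q := by
    intro s hs x y
    refine ((h0 q (by omega) σ hσ δ hδ0.le hδone hδ2 s hs).2 x y).trans ?_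
    exact div_le_div_of_nonneg_right (le_abs_self _) hq0.le
  have hBq : ∀ W : ℝ, 0 ≤ W → |C₀| * W ≤ B → |C₀| / q * W ≤ 1 := by
    intro W hW h
    rw [div_mul_eq_mul_div, div_le_one hq0]
    linarith
  have hLd : 0 < (L : ℝ) ^ d := by positivity
  refine ⟨?_, ?_, ?_⟩
  · -- (a)
    intro s hs x y
    have e1 := (abs_le.1 (herr s hs x y)).2
    have e2 := qq_upper hL (s * δ) (by positivity) x y
    have e3 : |C₀| / q ≤ 1 / (L : ℝ) ^ d := by
      rw [le_div_iff₀ hLd]
      apply hBq _ hLd.le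
      rw [hB]
      apply mul_le_mul_of_nonneg_left _ hC0
      have : 0 ≤ (L : ℝ) ^ d * Real.exp (d * L) := by positivity
      have : 0 ≤ 2 * 2 ^ d * C₂ * (L : ℝ) ^ d := by positivity
      linarith
    have hp : 0 < (1 + (s : ℝ) * δ) ^ (-(d / 2 : ℝ)) := Real.rpow_pos_of_pos (by positivity) _
    have e4 : (0 : ℝ) < 1 / (L : ℝ) ^ d := by positivity
    have e5 : (4 ^ d + 1) * ((1 + (s : ℝ) * δ) ^ (-(d / 2 : ℝ)) + 1 / (L : ℝ) ^ d) ≤
        C * ((1 + (s : ℝ) * δ) ^ (-(d / 2 : ℝ)) + 1 / (L : ℝ) ^ d) := by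
      apply mul_le_mul_of_nonneg_right _ (by positivity)
      rw [hC]
      have : 0 ≤ 2 * 2 ^ d * C₂ := by positivity
      linarith
    refine le_trans ?_ e5
    nlinarith
  · -- (b)
    intro u hu1 huK k hk D y
    have hms : 0 < ms d L := by
      unfold ms
      exact Nat.mul_pos (pow_pos (Nat.pos_of_ne_zero (NeZero.ne L)) d) (by omega)
    -- the sweep
    set s : ℕ := (k + ms d L - 1) / ms d L with hs
    have hs1 : k ≤ s * ms d L := by
      have := Nat.lt_div_mul_add (a := k + ms d L - 1) hms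
      rw [← hs] at this
      omega
    have hs2 : s * ms d L < k + ms d L := by
      have := Nat.div_mul_le_self (k + ms d L - 1) (ms d L)
      rw [← hs] at this
      omega
    have hs3 : s ≤ u * q := by
      have h3 : s * ms d L < (u * q + 1) * ms d L := by
        calc s * ms d L < k + ms d L := hs2
          _ ≤ u * (q * ms d L) + ms d L := by omega
          _ = (u * q + 1) * ms d L := by ring
      have := Nat.lt_of_mul_lt_mul_right h3
      omega
    have hs4 : s ≤ K * q := hs3.trans (Nat.mul_le_mul_right q huK)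
    have hhalf : (1 / 2 : ℝ) ≤ (1 - δ) ^ (s * ms d L - k) := by
      have h3 : 1 + ((s * ms d L - k : ℕ) : ℝ) * (-δ) ≤ (1 + (-δ)) ^ (s * ms d L - k) :=
        one_add_mul_le_pow (by linarith) _
      have h4 : ((s * ms d L - k : ℕ) : ℝ) ≤ ms d L := by
        have : s * ms d L - k ≤ ms d L := by omega
        exact_mod_cast this
      have h5 : ((s * ms d L - k : ℕ) : ℝ) * δ ≤ ms d L * δ :=
        mul_le_mul_of_nonneg_right h4 hδ0.le
      have h6 : (1 : ℝ) - δ = 1 + -δ := by ring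
      rw [h6]
      linarith
    have hPP : ∀ x, PP (ed ∘ σ) δ k x y ≤ 2 * PP (ed ∘ σ) δ (s * ms d L) x y := by
      intro x
      have h3 := PP_steps (ed ∘ σ) hδ0.le hδone k x y (s * ms d L - k)
      have h4 : k + (s * ms d L - k) = s * ms d L := by omega
      rw [h4] at h3
      have h5 := PP_nonneg (ed ∘ σ) hδ0.le hδone k x y
      nlinarith
    by_cases hD : d * L ≤ D
    · have h3 : univ.filter (fun x : Fin d → ZMod L => D < td x y) = ∅ := by
        rw [Finset.filter_eq_empty_iff]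
        intro x _
        have := td_le x y
        omega
      rw [h3, Finset.sum_empty]
      positivity
    push Not at hD
    have hsu0 : 1 ≤ Real.sqrt u := by
      rw [Real.one_le_sqrt]
      exact_mod_cast hu1
    -- the tail of the kernel
    have hsδ : (s : ℝ) * δ ≤ 2 * u := by
      have h3 : (s : ℝ) ≤ u * q := by exact_mod_cast hs3
      have h4 : (s : ℝ) * δ ≤ u * q * δ := mul_le_mul_of_nonneg_right h3 hδ0.le
      have h5 : (u : ℝ) * q * δ = u * (δ * q) := by ring
      have h6 : (u : ℝ) * (δ * q) ≤ u * 2 := mul_le_mul_of_nonneg_left hδ2 (Nat.cast_nonneg _)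
      linarith
    have hker : ∑ x ∈ univ.filter (fun x : Fin d → ZMod L => D < td x y),
        qq (nnRate d L) (s * δ) x y ≤ C₁ * Real.exp (-(D / (2 * C₁ * Real.sqrt u))) := by
      have h3 := h1 L hL (s * δ) (by positivity) D y
      have h4 : ∑ x ∈ univ.filter (fun x : Fin d → ZMod L => D < td x y),
          qq (nnRate d L) (s * δ) x y = ∑ x ∈ univ.filter (fun x => D < td y x),
          qq (nnRate d L) (s * δ) y x := by
        have h5 : univ.filter (fun x : Fin d → ZMod L => D < td x y) =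
            univ.filter (fun x => D < td y x) :=
          Finset.filter_congr fun x _ => by rw [td_symm]
        rw [h5]
        exact Finset.sum_congr rfl fun x _ => qq_symm hL _ _ _
      rw [h4]
      refine h3.trans (mul_le_mul_of_nonneg_left (Real.exp_le_exp.2 (neg_le_neg ?_))
        (by linarith))
      refine div_le_div_of_nonneg_left (Nat.cast_nonneg _) (by positivity) ?_
      have h5 : Real.sqrt (s * δ + 1) ≤ 2 * Real.sqrt u := by
        have h6 : (2 : ℝ) = Real.sqrt 4 := by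
          rw [show (4 : ℝ) = 2 ^ 2 by norm_num, Real.sqrt_sq (by norm_num)]
        rw [h6, ← Real.sqrt_mul (by norm_num)]
        refine Real.sqrt_le_sqrt ?_
        have : (1 : ℝ) ≤ u := by exact_mod_cast hu1
        linarith
      calc C₁ * Real.sqrt (s * δ + 1) ≤ C₁ * (2 * Real.sqrt u) :=
            mul_le_mul_of_nonneg_left h5 (by linarith)
        _ = 2 * C₁ * Real.sqrt u := by ring
    have herrs : ∑ _x ∈ univ.filter (fun x : Fin d → ZMod L => D < td x y), |C₀| / q ≤
        Real.exp (-(D : ℝ)) := by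
      have h3 : ∑ _x ∈ univ.filter (fun x : Fin d → ZMod L => D < td x y), |C₀| / q ≤
          ∑ _x : Fin d → ZMod L, |C₀| / q :=
        Finset.sum_le_sum_of_subset_of_nonneg (Finset.filter_subset _ _)
          fun _ _ _ => by positivity
      have h4 : ∑ _x : Fin d → ZMod L, |C₀| / q = |C₀| / q * (L : ℝ) ^ d := by
        rw [Finset.sum_const, Finset.card_univ, Fintype.card_fun, ZMod.card, Fintype.card_fin,
          nsmul_eq_mul]
        push_cast
        ring
      rw [h4] at h3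
      refine h3.trans ?_
      have h5 := hBq ((L : ℝ) ^ d * Real.exp (d * L)) (by positivity) (by
        rw [hB]
        apply mul_le_mul_of_nonneg_left _ hC0
        have : 0 ≤ 2 * 2 ^ d * C₂ * (L : ℝ) ^ d := by positivity
        linarith)
      have h6 : Real.exp (D : ℝ) ≤ Real.exp (d * L) := by
        apply Real.exp_le_exp.2
        exact_mod_cast hD.le
      have h7 : |C₀| / q * (L : ℝ) ^ d * Real.exp D ≤ 1 := by
        refine le_trans ?_ h5
        rw [mul_assoc]
        exact mul_le_mul_of_nonneg_left (mul_le_mul_of_nonneg_left h6 hLd.le) (by positivity)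
      rw [Real.exp_neg]
      have h8 := Real.exp_pos (D : ℝ)
      rw [← one_div, le_div_iff₀ h8]
      exact h7
    have hmain : ∑ x ∈ univ.filter (fun x : Fin d → ZMod L => D < td x y),
        PP (ed ∘ σ) δ k x y ≤ 2 * (C₁ * Real.exp (-(D / (2 * C₁ * Real.sqrt u))) +
          Real.exp (-(D : ℝ))) := by
      calc _ ≤ ∑ x ∈ univ.filter (fun x : Fin d → ZMod L => D < td x y),
            2 * (qq (nnRate d L) (s * δ) x y + |C₀| / q) := by
            refine Finset.sum_le_sum fun x _ => ?_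
            have h3 := hPP x
            have h4 := (abs_le.1 (herr s hs4 x y)).2
            linarith
        _ = 2 * (∑ x ∈ univ.filter (fun x : Fin d → ZMod L => D < td x y),
              qq (nnRate d L) (s * δ) x y +
            ∑ _x ∈ univ.filter (fun x : Fin d → ZMod L => D < td x y), |C₀| / q) := by
            rw [← Finset.mul_sum, Finset.sum_add_distrib]
        _ ≤ _ := by linarith
    refine hmain.trans ?_
    have hCC : 2 * C₁ + 2 ≤ C := by
      rw [hC]
      have : 0 ≤ 2 * 2 ^ d * C₂ := by positivity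
      linarith
    have e1 : Real.exp (-(D / (2 * C₁ * Real.sqrt u))) ≤
        Real.exp (-(D / (C * Real.sqrt u))) := by
      refine Real.exp_le_exp.2 (neg_le_neg ?_)
      refine div_le_div_of_nonneg_left (Nat.cast_nonneg _) (by positivity) ?_
      exact mul_le_mul_of_nonneg_right (by linarith) (by linarith)
    have e2 : Real.exp (-(D : ℝ)) ≤ Real.exp (-(D / (C * Real.sqrt u))) := by
      refine Real.exp_le_exp.2 (neg_le_neg ?_)
      refine div_le_self (Nat.cast_nonneg _) ?_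
      nlinarith
    have e3 := Real.exp_pos (-(D / (C * Real.sqrt u)))
    calc 2 * (C₁ * Real.exp (-(D / (2 * C₁ * Real.sqrt u))) + Real.exp (-(D : ℝ))) ≤
          2 * (C₁ * Real.exp (-(D / (C * Real.sqrt u))) +
            Real.exp (-(D / (C * Real.sqrt u)))) := by
          have := mul_le_mul_of_nonneg_left e1 (by linarith : (0 : ℝ) ≤ C₁)
          linarith
      _ = (2 * C₁ + 2) * Real.exp (-(D / (C * Real.sqrt u))) := by ring
      _ ≤ C * Real.exp (-(D / (C * Real.sqrt u))) := mul_le_mul_of_nonneg_right hCC e3.le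
  · -- (c)
    intro u hu1 huK huL x y hxy
    have hu1' : (1 : ℝ) ≤ u := by exact_mod_cast hu1
    have huL' : (u : ℝ) ≤ (L : ℝ) ^ 2 := by exact_mod_cast huL
    have hcast : (((u * q : ℕ) : ℝ)) * δ = u * (δ * q) := by
      push_cast
      ring
    have ht1 : (u : ℝ) ≤ ((u * q : ℕ) : ℝ) * δ := by
      rw [hcast]
      nlinarith
    have ht2 : ((u * q : ℕ) : ℝ) * δ ≤ 2 * u := by
      rw [hcast]
      nlinarith
    have hst : Real.sqrt u ≤ Real.sqrt (((u * q : ℕ) : ℝ) * δ) := Real.sqrt_le_sqrt ht1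
    have hsu0 : 1 ≤ Real.sqrt u := by
      rw [Real.one_le_sqrt]
      exact hu1'
    have hC2C : C₂ ≤ C := by
      rw [hC]
      linarith
    have h3 := h2 L hL (((u * q : ℕ) : ℝ) * δ) (by linarith) (by linarith) x y (by
      refine hxy.trans ?_
      calc Real.sqrt u / C ≤ Real.sqrt (((u * q : ℕ) : ℝ) * δ) / C :=
            div_le_div_of_nonneg_right hst (by linarith)
        _ ≤ _ := div_le_div_of_nonneg_left (by linarith) (by linarith) hC2C)
    have h4 := (abs_le.1 (herr (u * q) (Nat.mul_le_mul_right q huK) x y)).1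
    have hmsq : u * q * ms d L = u * (q * ms d L) := by ring
    rw [hmsq] at h4
    -- powers
    have hup : 0 < (u : ℝ) ^ (-(d / 2 : ℝ)) := Real.rpow_pos_of_pos (by linarith) _
    have h5 : (u : ℝ) ^ (-(d / 2 : ℝ)) / 2 ^ d ≤ (((u * q : ℕ) : ℝ) * δ) ^ (-(d / 2 : ℝ)) := by
      have h6 : (2 * (u : ℝ)) ^ (-(d / 2 : ℝ)) ≤ (((u * q : ℕ) : ℝ) * δ) ^ (-(d / 2 : ℝ)) :=
        Real.rpow_le_rpow_of_nonpos (by linarith) ht2 (by
          have : (0 : ℝ) ≤ d / 2 := by positivity
          linarith)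
      refine le_trans ?_ h6
      rw [Real.mul_rpow (by norm_num) (by linarith), mul_comm, div_eq_mul_inv]
      refine mul_le_mul_of_nonneg_left ?_ hup.le
      rw [Real.rpow_neg (by norm_num)]
      refine inv_anti₀ (Real.rpow_pos_of_pos (by norm_num) _) ?_
      rw [← Real.rpow_natCast]
      refine Real.rpow_le_rpow_of_exponent_le (by norm_num) ?_
      have : (0 : ℝ) ≤ d := Nat.cast_nonneg _
      linarith
    have h6 : |C₀| / q ≤ (u : ℝ) ^ (-(d / 2 : ℝ)) / (2 * 2 ^ d * C₂) := by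
      have h7 : |C₀| / q * (2 * 2 ^ d * C₂ * (L : ℝ) ^ d) ≤ 1 := by
        apply hBq _ (by positivity)
        rw [hB]
        apply mul_le_mul_of_nonneg_left _ hC0
        have : 0 ≤ (L : ℝ) ^ d * Real.exp (d * L) := by positivity
        linarith
      have h8 : ((L : ℝ) ^ d)⁻¹ ≤ (u : ℝ) ^ (-(d / 2 : ℝ)) := by
        have h9 : ((L : ℝ) ^ 2) ^ (-(d / 2 : ℝ)) ≤ (u : ℝ) ^ (-(d / 2 : ℝ)) :=
          Real.rpow_le_rpow_of_nonpos (by linarith) huL' (by
            have : (0 : ℝ) ≤ d / 2 := by positivity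
            linarith)
        refine le_trans (le_of_eq ?_) h9
        rw [← Real.rpow_natCast (L : ℝ) 2, ← Real.rpow_mul hL0.le]
        have h10 : ((2 : ℕ) : ℝ) * (-(d / 2 : ℝ)) = -(d : ℝ) := by
          push_cast
          ring
        rw [h10, Real.rpow_neg hL0.le, Real.rpow_natCast]
      have hpos : 0 < 2 * 2 ^ d * C₂ := by positivity
      rw [le_div_iff₀ hpos]
      refine le_trans ?_ h8
      rw [← one_div, le_div_iff₀ hLd]
      calc _ = |C₀| / q * (2 * 2 ^ d * C₂ * (L : ℝ) ^ d) := by ring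
        _ ≤ 1 := h7
    have h7 : (u : ℝ) ^ (-(d / 2 : ℝ)) / 2 ^ d / C₂ ≤
        qq (nnRate d L) (((u * q : ℕ) : ℝ) * δ) x y :=
      (div_le_div_of_nonneg_right h5 (by linarith)).trans h3
    have h8 : (u : ℝ) ^ (-(d / 2 : ℝ)) / 2 ^ d / C₂ =
        2 * ((u : ℝ) ^ (-(d / 2 : ℝ)) / (2 * 2 ^ d * C₂)) := by
      field_simp
    rw [h8] at h7
    have h9 : (u : ℝ) ^ (-(d / 2 : ℝ)) / C ≤ (u : ℝ) ^ (-(d / 2 : ℝ)) / (2 * 2 ^ d * C₂) := by
      refine div_le_div_of_nonneg_left hup.le (by positivity) ?_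
      rw [hC]
      linarith
    linarith

end Pool.Agent.Q229.LC.Fre
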