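import Pool.Agent.Q229.LC.Key

/-!
# Locating-dominating coalitions: the graph
-/

set_option autoImplicit false

namespace Q229.LC

/-- The vertices: `co i b` are the vertex of the variable number `i` (`b = false`) and its leaf
(`b = true`), `cl j r b` are the three pairs of twins of the clause number `j`, and there are two
five-cliques `fr g i` and a triangle `fr g (i + 1)`, `tr g i false`, `tr g i true` for each `i`. -/
inductive Vt (n m : ℕ) : Type
  | co (i : Fin n) (b : Bool) : Vt n m
  | cl (j : Fin m) (r : Fin 3) (b : Bool) : Vt n m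
  | fr (g : Bool) (i : Fin 5) : Vt n m
  | tr (g : Bool) (i : Fin 4) (b : Bool) : Vt n m
  deriving DecidableEq, Fintype

/-- The edges; `c j i` tells whether the variable number `i` occurs in the clause number `j`. -/
def E {n m : ℕ} (c : Fin m → Fin n → Bool) : Vt n m → Vt n m → Prop
  | .co i b, .co i' b' => i = i' ∧ (b = false ∧ b' = true)
  | .co i b, .cl j r _ => b = false ∧ (r = 1 ∧ c j i = true)
  | .co _ b, .fr _ i' => b = false ∧ i' = 1
  | .cl j r _, .cl j' r' _ => j = j' ∧ (r = 0 ∧ r' ≠ 0)
  | .fr g i, .fr g' i' => (g = g' ∧ i ≠ i') ∨ (i = 1 ∧ i' = 1 ∧ g ≠ g')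
  | .fr g i, .tr g' i' _ => g = g' ∧ i = i'.succ
  | .tr g i b, .tr g' i' b' => g = g' ∧ (i = i' ∧ b ≠ b')
  | _, _ => False

/-- The graph. -/
def Gr {n m : ℕ} (c : Fin m → Fin n → Bool) : SimpleGraph (Vt n m) where
  Adj x y := x ≠ y ∧ (E c x y ∨ E c y x)
  symm := ⟨fun _ _ h => ⟨h.1.symm, h.2.symm⟩⟩
  loopless := ⟨fun _ h => h.1 rfl⟩

variable {n m : ℕ} (c : Fin m → Fin n → Bool)

/-- The sets which have to be met by the locating-dominating sets. -/
def Bas : Set (Finset (Vt n m)) :=
  {R | (∃ i, R = {.co i false, .co i true}) ∨ (∃ j r, R = {.cl j r false, .cl j r true}) ∨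
    (∃ g i, R = {.tr g i false, .tr g i true}) ∨ (∃ g, R = Finset.univ.image fun i => .fr g i) ∨
    ∃ j b b', R = {.cl j 1 b, .cl j 2 b'} ∪ (Finset.univ.filter fun i => c j i = true).image
      fun i => .co i false}

theorem hit_iff (D : Set (Vt n m)) : (∀ R ∈ Bas c, ∃ v ∈ R, v ∈ D) ↔
    (∀ i, .co i false ∈ D ∨ .co i true ∈ D) ∧ (∀ j r, .cl j r false ∈ D ∨ .cl j r true ∈ D) ∧
    (∀ g i, .tr g i false ∈ D ∨ .tr g i true ∈ D) ∧ (∀ g, ∃ i, .fr g i ∈ D) ∧
    ∀ j b b', .cl j 1 b ∈ D ∨ .cl j 2 b' ∈ D ∨ ∃ i, c j i = true ∧ .co i false ∈ D := by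
  constructor
  · intro h
    refine ⟨fun i => ?_, fun j r => ?_, fun g i => ?_, fun g => ?_, fun j b b' => ?_⟩
    · obtain ⟨v, hv, hD⟩ := h _ (Or.inl ⟨i, rfl⟩)
      simp only [Finset.mem_insert, Finset.mem_singleton] at hv
      rcases hv with rfl | rfl
      · exact Or.inl hD
      · exact Or.inr hD
    · obtain ⟨v, hv, hD⟩ := h _ (Or.inr (Or.inl ⟨j, r, rfl⟩))
      simp only [Finset.mem_insert, Finset.mem_singleton] at hv
      rcases hv with rfl | rfl
      · exact Or.inl hD
      · exact Or.inr hD
    · obtain ⟨v, hv, hD⟩ := h _ (Or.inr (Or.inr (Or.inl ⟨g, i, rfl⟩)))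
      simp only [Finset.mem_insert, Finset.mem_singleton] at hv
      rcases hv with rfl | rfl
      · exact Or.inl hD
      · exact Or.inr hD
    · obtain ⟨v, hv, hD⟩ := h _ (Or.inr (Or.inr (Or.inr (Or.inl ⟨g, rfl⟩))))
      simp only [Finset.mem_image, Finset.mem_univ, true_and] at hv
      obtain ⟨i, rfl⟩ := hv
      exact ⟨i, hD⟩
    · obtain ⟨v, hv, hD⟩ := h _ (Or.inr (Or.inr (Or.inr (Or.inr ⟨j, b, b', rfl⟩))))
      simp only [Finset.mem_union, Finset.mem_insert, Finset.mem_singleton, Finset.mem_image,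
        Finset.mem_filter, Finset.mem_univ, true_and] at hv
      rcases hv with (rfl | rfl) | ⟨i, hi, rfl⟩
      · exact Or.inl hD
      · exact Or.inr (Or.inl hD)
      · exact Or.inr (Or.inr ⟨i, hi, hD⟩)
  · rintro ⟨h1, h2, h3, h4, h5⟩ R (⟨i, rfl⟩ | ⟨j, r, rfl⟩ | ⟨g, i, rfl⟩ | ⟨g, rfl⟩ | ⟨j, b, b', rfl⟩)
    · rcases h1 i with h | h
      · exact ⟨_, by simp, h⟩
      · exact ⟨_, by simp, h⟩
    · rcases h2 j r with h | h
      · exact ⟨_, by simp, h⟩
      · exact ⟨_, by simp, h⟩
    · rcases h3 g i with h | h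
      · exact ⟨_, by simp, h⟩
      · exact ⟨_, by simp, h⟩
    · obtain ⟨i, h⟩ := h4 g
      exact ⟨_, by simp, h⟩
    · rcases h5 j b b' with h | h | ⟨i, hi, h⟩
      · exact ⟨_, by simp, h⟩
      · exact ⟨_, by simp, h⟩
      · exact ⟨.co i false, by simp [hi], h⟩

theorem bas_card (hc : ∀ j, (Finset.univ.filter fun i => c j i = true).card ≤ 3) :
    ∀ R ∈ Bas c, R.card ≤ 5 := by
  rintro R (⟨i, rfl⟩ | ⟨j, r, rfl⟩ | ⟨g, i, rfl⟩ | ⟨g, rfl⟩ | ⟨j, b, b', rfl⟩)
  · exact Finset.card_le_two.trans (by norm_num)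
  · exact Finset.card_le_two.trans (by norm_num)
  · exact Finset.card_le_two.trans (by norm_num)
  · exact Finset.card_image_le.trans (by simp)
  · refine (Finset.card_union_le _ _).trans ?_
    have h1 : ({.cl j 1 b, .cl j 2 b'} : Finset (Vt n m)).card ≤ 2 := Finset.card_le_two
    have h2 : ((Finset.univ.filter fun i => c j i = true).image
      fun i => (.co i false : Vt n m)).card ≤ _ := Finset.card_image_le
    have := hc j
    omega

theorem adj_iff (x y : Vt n m) : (Gr c).Adj x y ↔ x ≠ y ∧ (E c x y ∨ E c y x) := Iff.rfl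

theorem sep_of {D : Set (Vt n m)} {u v d : Vt n m} (hd : d ∈ D) (h1 : (Gr c).Adj u d)
    (h2 : ¬ (Gr c).Adj v d) : (Gr c).neighborSet u ∩ D ≠ (Gr c).neighborSet v ∩ D := by
  intro h
  have h3 : d ∈ (Gr c).neighborSet u ∩ D := ⟨h1, hd⟩
  rw [h] at h3
  exact h2 h3.1

/-- the kind of a vertex -/
def rk {n m : ℕ} : Vt n m → ℕ
  | .co _ _ => 0
  | .cl _ _ _ => 1
  | .fr _ _ => 2
  | .tr _ _ _ => 3

theorem ldset_iff (D : Set (Vt n m)) : LDSet (Gr c) D ↔ ∀ R ∈ Bas c, ∃ v ∈ R, v ∈ D := by
  rw [hit_iff]
  constructor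
  · rintro ⟨h1, h2⟩
    refine ⟨fun i => ?_, fun j r => ?_, fun g i => ?_, fun g => ?_, fun j b b' => ?_⟩
    · by_contra h
      push Not at h
      obtain ⟨w, hw, h3⟩ := h1 _ h.2
      rcases w with ⟨i', b'⟩ | ⟨j', r', b'⟩ | ⟨g', i'⟩ | ⟨g', i', b'⟩ <;> simp [Gr, E] at h3
      obtain ⟨h4, h5, h6⟩ := h3
      subst h5 h6
      exact h.1 hw
    · by_contra h
      push Not at h
      refine h2 _ _ h.1 h.2 (by simp) ?_
      ext w
      rcases w with ⟨i', b'⟩ | ⟨j', r', b'⟩ | ⟨g', i'⟩ | ⟨g', i', b'⟩ <;> simp [Gr, E]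
      intro hw
      by_cases hj : j = j'
      · subst hj
        fin_cases r <;> fin_cases r' <;> simp
      · simp [hj, Ne.symm hj]
    · by_contra h
      push Not at h
      refine h2 _ _ h.1 h.2 (by simp) ?_
      ext w
      rcases w with ⟨i', b'⟩ | ⟨j', r', b'⟩ | ⟨g', i'⟩ | ⟨g', i', b'⟩ <;> simp [Gr, E]
      intro hw
      by_cases hg : g = g' ∧ i = i'
      · obtain ⟨rfl, rfl⟩ := hg
        cases b'
        · exact absurd hw h.1
        · exact absurd hw h.2
      · constructor
        · rintro ⟨_, h6 | h6⟩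
          · exact absurd ⟨h6.1, h6.2.1⟩ hg
          · exact absurd ⟨h6.1.symm, h6.2.1.symm⟩ hg
        · rintro ⟨_, h6 | h6⟩
          · exact absurd ⟨h6.1, h6.2.1⟩ hg
          · exact absurd ⟨h6.1.symm, h6.2.1.symm⟩ hg
    · by_contra h
      push Not at h
      obtain ⟨w, hw, h3⟩ := h1 _ (h 0)
      rcases w with ⟨i', b'⟩ | ⟨j', r', b'⟩ | ⟨g', i'⟩ | ⟨g', i', b'⟩ <;> simp [Gr, E] at h3
      · obtain ⟨_, h3 | h3⟩ := h3
        · rw [← h3.1] at hw
          exact h _ hw
        · rw [h3.1] at hw
          exact h _ hw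
      · exact absurd h3.2.symm (Fin.succ_ne_zero _)
    · by_contra h
      push Not at h
      refine h2 _ _ h.1 h.2.1 (by simp) ?_
      ext w
      rcases w with ⟨i', b'⟩ | ⟨j', r', b'⟩ | ⟨g', i'⟩ | ⟨g', i', b'⟩ <;> simp [Gr, E]
      · rintro rfl h6
        exact h.2.2 i' h6
      · intro hw
        by_cases hj : j = j'
        · subst hj
          fin_cases r' <;> simp
        · simp [hj, Ne.symm hj]
  · rintro ⟨h1, h2, h3, h4, h5⟩
    have hco : ∀ i b, .co i b ∉ D → .co i (!b) ∈ D := by
      intro i b h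
      cases b
      · exact (h1 i).resolve_left h
      · exact (h1 i).resolve_right h
    have hcl : ∀ j r b, .cl j r b ∉ D → .cl j r (!b) ∈ D := by
      intro j r b h
      cases b
      · exact (h2 j r).resolve_left h
      · exact (h2 j r).resolve_right h
    have htr : ∀ g i b, .tr g i b ∉ D → .tr g i (!b) ∈ D := by
      intro g i b h
      cases b
      · exact (h3 g i).resolve_left h
      · exact (h3 g i).resolve_right h
    have hcl' : ∀ j r, ∃ b, .cl j r b ∈ D := fun j r => by
      rcases h2 j r with h | h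
      · exact ⟨_, h⟩
      · exact ⟨_, h⟩
    have htr' : ∀ g i, ∃ b, .tr g i b ∈ D := fun g i => by
      rcases h3 g i with h | h
      · exact ⟨_, h⟩
      · exact ⟨_, h⟩
    constructor
    · rintro (⟨i, b⟩ | ⟨j, r, b⟩ | ⟨g, i⟩ | ⟨g, i, b⟩) hv
      · refine ⟨_, hco i b hv, ?_⟩
        cases b <;> simp [Gr, E]
      · by_cases hr : r = 0
        · subst hr
          obtain ⟨b', h6⟩ := hcl' j 1
          exact ⟨_, h6, by simp [Gr, E]⟩
        · obtain ⟨b', h6⟩ := hcl' j 0
          exact ⟨_, h6, by simp [Gr, E, hr]⟩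
      · obtain ⟨k, hk⟩ := h4 g
        refine ⟨_, hk, ?_⟩
        have h6 : i ≠ k := by
          rintro rfl
          exact hv hk
        simp [Gr, E, h6]
      · refine ⟨_, htr g i b hv, ?_⟩
        cases b <;> simp [Gr, E]
    · have key : ∀ u v : Vt n m, rk u ≤ rk v → u ∉ D → v ∉ D → u ≠ v →
          (∃ d ∈ D, (Gr c).Adj u d ∧ ¬ (Gr c).Adj v d) ∨
          (∃ d ∈ D, (Gr c).Adj v d ∧ ¬ (Gr c).Adj u d) := by
        rintro (⟨i, b⟩ | ⟨j, r, b⟩ | ⟨g, i⟩ | ⟨g, i, b⟩) (⟨i', b'⟩ | ⟨j', r', b'⟩ | ⟨g', i'⟩ |
          ⟨g', i', b'⟩) hrk hu hv huv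
        · left
          refine ⟨_, hco i b hu, by cases b <;> simp [Gr, E], ?_⟩
          cases b <;> cases b' <;> simp [Gr, E] at hv huv ⊢
          · exact fun h => huv h.symm
          · exact huv
        · cases b
          · left
            exact ⟨_, hco i _ hu, by simp [Gr, E], by simp [Gr, E]⟩
          · right
            by_cases hr : r' = 0
            · subst hr
              obtain ⟨b', h6⟩ := hcl' j' 1
              exact ⟨_, h6, by simp [Gr, E], by simp [Gr, E]⟩
            · obtain ⟨b', h6⟩ := hcl' j' 0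
              exact ⟨_, h6, by simp [Gr, E, hr], by simp [Gr, E]⟩
        · cases b
          · left
            exact ⟨_, hco i _ hu, by simp [Gr, E], by simp [Gr, E]⟩
          · right
            obtain ⟨k, hk⟩ := h4 g'
            have h6 : i' ≠ k := by
              rintro rfl
              exact hv hk
            exact ⟨_, hk, by simp [Gr, E, h6], by simp [Gr, E]⟩
        · cases b
          · left
            exact ⟨_, hco i _ hu, by simp [Gr, E], by simp [Gr, E]⟩
          · right
            exact ⟨_, htr g' i' b' hv, by cases b' <;> simp [Gr, E], by simp [Gr, E]⟩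
        · simp [rk] at hrk
        · by_cases hr : r = 0
          · subst hr
            left
            obtain ⟨b0, h6⟩ := hcl' j 1
            refine ⟨_, h6, by simp [Gr, E], ?_⟩
            intro h7
            simp [Gr, E] at h7
            obtain ⟨_, rfl, rfl⟩ := h7
            have h8 := hcl _ _ _ hu
            cases b <;> cases b' <;> simp_all
          by_cases hr' : r' = 0
          · subst hr'
            right
            obtain ⟨b0, h6⟩ := hcl' j' 1
            refine ⟨_, h6, by simp [Gr, E], ?_⟩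
            simp [Gr, E, hr]
          by_cases hj : j = j'
          · subst hj
            by_cases hrr : r = r'
            · subst hrr
              have h8 := hcl _ _ _ hu
              cases b <;> cases b' <;> simp_all
            · have h9 : r = 1 ∧ r' = 2 ∨ r = 2 ∧ r' = 1 := by
                fin_cases r <;> fin_cases r' <;> simp_all
              rcases h9 with ⟨rfl, rfl⟩ | ⟨rfl, rfl⟩
              · left
                rcases h5 j b b' with h | h | ⟨i, hi, h⟩
                · exact absurd h hu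
                · exact absurd h hv
                · exact ⟨_, h, by simp [Gr, E, hi], by simp [Gr, E]⟩
              · right
                rcases h5 j b' b with h | h | ⟨i, hi, h⟩
                · exact absurd h hv
                · exact absurd h hu
                · exact ⟨_, h, by simp [Gr, E, hi], by simp [Gr, E]⟩
          · left
            obtain ⟨b0, h6⟩ := hcl' j 0
            exact ⟨_, h6, by simp [Gr, E, hr], by simp [Gr, E, hj]⟩
        · left
          by_cases hr : r = 0
          · subst hr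
            obtain ⟨b0, h6⟩ := hcl' j 1
            exact ⟨_, h6, by simp [Gr, E], by simp [Gr, E]⟩
          · obtain ⟨b0, h6⟩ := hcl' j 0
            exact ⟨_, h6, by simp [Gr, E, hr], by simp [Gr, E]⟩
        · left
          by_cases hr : r = 0
          · subst hr
            obtain ⟨b0, h6⟩ := hcl' j 1
            exact ⟨_, h6, by simp [Gr, E], by simp [Gr, E]⟩
          · obtain ⟨b0, h6⟩ := hcl' j 0
            exact ⟨_, h6, by simp [Gr, E, hr], by simp [Gr, E]⟩
        · simp [rk] at hrk
        · simp [rk] at hrk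
        · by_cases hi : i = 0
          · by_cases hi' : i' = 0
            · subst hi hi'
              obtain ⟨k, hk⟩ := h4 g
              have h6 : 0 ≠ k := by
                rintro rfl
                exact hu hk
              have h7 : g ≠ g' := by
                rintro rfl
                exact huv rfl
              left
              exact ⟨_, hk, by simp [Gr, E, h6], by simp [Gr, E, h7, h7.symm]⟩
            · obtain ⟨k, rfl⟩ := Fin.exists_succ_eq.2 hi'
              right
              obtain ⟨b0, h6⟩ := htr' g' k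
              refine ⟨_, h6, by simp [Gr, E], ?_⟩
              intro h7
              simp [Gr, E] at h7
              exact huv (by rw [h7.1, h7.2])
          · obtain ⟨k, rfl⟩ := Fin.exists_succ_eq.2 hi
            left
            obtain ⟨b0, h6⟩ := htr' g k
            refine ⟨_, h6, by simp [Gr, E], ?_⟩
            intro h7
            simp [Gr, E] at h7
            exact huv (by rw [h7.1, h7.2])
        · by_cases h6 : g = g' ∧ i = i'.succ
          · obtain ⟨rfl, rfl⟩ := h6
            obtain ⟨k, hk⟩ := h4 g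
            have h6 : i'.succ ≠ k := by
              rintro rfl
              exact hu hk
            left
            exact ⟨_, hk, by simp [Gr, E, h6], by simp [Gr, E, h6.symm]⟩
          · right
            refine ⟨_, htr _ _ _ hv, by cases b' <;> simp [Gr, E], ?_⟩
            simpa [Gr, E] using h6
        · simp [rk] at hrk
        · simp [rk] at hrk
        · simp [rk] at hrk
        · left
          refine ⟨_, htr _ _ _ hu, by cases b <;> simp [Gr, E], ?_⟩
          intro h7
          cases b <;> cases b' <;> simp [Gr, E] at h7 huv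
          · rcases h7 with ⟨h8, h9⟩ | ⟨h8, h9⟩
            · exact huv h8.symm h9.symm
            · exact huv h8 h9
          · rcases h7 with ⟨h8, h9⟩ | ⟨h8, h9⟩
            · exact huv h8.symm h9.symm
            · exact huv h8 h9
      intro u v hu hv huv
      rcases le_total (rk u) (rk v) with hr | hr
      · rcases key u v hr hu hv huv with ⟨d, hd, h6, h7⟩ | ⟨d, hd, h6, h7⟩
        · exact sep_of c hd h6 h7
        · exact (sep_of c hd h6 h7).symm
      · rcases key v u hr hv hu huv.symm with ⟨d, hd, h6, h7⟩ | ⟨d, hd, h6, h7⟩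
        · exact (sep_of c hd h6 h7).symm
        · exact sep_of c hd h6 h7

end Q229.LC
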