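import Pool.Agent.Q292.LC.Stm6

/-! Project LC (helper292), lemma jobs HKT and HKL. -/

set_option autoImplicit false

namespace Pool.Agent.Q229.LC.HK

open Finset Q292.LC
open Pool.Agent.Y998.ST (rc lam gk nnRate qq hk)

section line

variable {L : ℕ} [NeZero L]

/-- absolute value -/
def av (u : ZMod L) : ℕ := u.valMinAbs.natAbs

theorem av_neg (u : ZMod L) : av (-u) = av u := ZMod.natAbs_valMinAbs_neg u

theorem av_one (hL : 3 ≤ L) : (1 : ZMod L).valMinAbs = 1 := by
  have h := ZMod.valMinAbs_natCast_of_le_half (n := L) (a := 1) (by omega)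
  simpa using h

theorem gk_even (t : ℝ) (u : ZMod L) : gk L t (-u) = gk L t u := by
  unfold gk
  congr 1
  refine Finset.sum_congr rfl fun k _ => ?_
  congr 1
  unfold rc
  rw [mul_neg, Pool.Agent.Y998.ST.rc_neg, Complex.conj_re]

theorem gk_eq (hL : 3 ≤ L) (t : ℝ) (a b : Fin 1 → ZMod L) :
    qq (nnRate 1 L) t a b = gk L t (b 0 - a 0) := by
  rw [Pool.Agent.Y998.ST.qq_eq_hk hL]
  unfold hk
  rw [Fin.prod_univ_one]

theorem gk_nonneg (hL : 3 ≤ L) {t : ℝ} (ht : 0 ≤ t) (u : ZMod L) : 0 ≤ gk L t u := by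
  have h := gk_eq hL t (fun _ => 0) (fun _ => u)
  rw [sub_zero] at h
  rw [← h]
  exact Pool.Agent.Y998.ST.qq_nonneg Pool.Agent.Y998.ST.nn_nonneg ht _ _

theorem sum_fin1 (F : ZMod L → ℝ) : ∑ y : Fin 1 → ZMod L, F (y 0) = ∑ u, F u :=
  Fintype.sum_equiv (Equiv.funUnique (Fin 1) (ZMod L)) _ _ fun _ => rfl

theorem gk_sum (hL : 3 ≤ L) (t : ℝ) : ∑ u, gk L t u = 1 := by
  have h := Pool.Agent.Y998.ST.qq_row (nnRate 1 L) t (fun _ => (0 : ZMod L))
  rw [← sum_fin1]
  rw [← h]
  refine Finset.sum_congr rfl fun y _ => ?_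
  rw [gk_eq hL, sub_zero]

theorem gk_semi (hL : 3 ≤ L) (s t : ℝ) : gk L (s + t) 0 = ∑ u, gk L s u * gk L t u := by
  have h := Pool.Agent.Y998.ST.qq_add (J := nnRate 1 L) Pool.Agent.Y998.ST.nn_symm
    (Pool.Agent.Y998.ST.nn_diag hL) s t
  have h1 := congrFun (congrFun h (fun _ => 0)) (fun _ => 0)
  rw [Matrix.mul_apply, gk_eq hL, sub_zero] at h1
  rw [h1, ← sum_fin1]
  refine Finset.sum_congr rfl fun y _ => ?_
  rw [gk_eq hL, gk_eq hL, sub_zero, zero_sub, gk_even]

/-- the weight function -/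
noncomputable def hw (θ : ℝ) (u : ZMod L) : ℝ := Real.cosh (θ * u.valMinAbs)

theorem hw_step (hL : 3 ≤ L) (θ : ℝ) (u : ZMod L) :
    hw θ (u + 1) + hw θ (u - 1) ≤ 2 * Real.cosh θ * hw θ u := by
  unfold hw
  have h1 : Real.cosh (θ * (u + 1).valMinAbs) ≤ Real.cosh (θ * (u.valMinAbs + 1)) := by
    rw [Real.cosh_le_cosh, abs_mul, abs_mul]
    refine mul_le_mul_of_nonneg_left ?_ (abs_nonneg _)
    have h := ZMod.natAbs_valMinAbs_add_le u 1
    rw [av_one hL] at h
    have h' : |(u + 1).valMinAbs| ≤ |u.valMinAbs + 1| := by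
      rw [Int.abs_eq_natAbs, Int.abs_eq_natAbs]
      exact_mod_cast h
    exact_mod_cast h'
  have h2 : Real.cosh (θ * (u - 1).valMinAbs) ≤ Real.cosh (θ * (u.valMinAbs - 1)) := by
    rw [Real.cosh_le_cosh, abs_mul, abs_mul]
    refine mul_le_mul_of_nonneg_left ?_ (abs_nonneg _)
    have h := ZMod.natAbs_valMinAbs_add_le u (-1)
    have h3 : (-1 : ZMod L).valMinAbs = -1 := by
      rw [ZMod.valMinAbs_neg_of_ne_half, av_one hL]
      rw [ZMod.val_one'' (by omega)]
      omega
    rw [h3, ← sub_eq_add_neg, ← sub_eq_add_neg] at h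
    have h' : |(u - 1).valMinAbs| ≤ |u.valMinAbs - 1| := by
      rw [Int.abs_eq_natAbs, Int.abs_eq_natAbs]
      exact_mod_cast h
    exact_mod_cast h'
  refine (add_le_add h1 h2).trans (le_of_eq ?_)
  have e1 : θ * ((u.valMinAbs : ℝ) + 1) = θ * u.valMinAbs + θ := by ring
  have e2 : θ * ((u.valMinAbs : ℝ) - 1) = θ * u.valMinAbs - θ := by ring
  rw [e1, e2, Real.cosh_add, Real.cosh_sub]
  ring

/-- the exponential moment -/
noncomputable def ph (L : ℕ) [NeZero L] (θ t : ℝ) : ℝ := ∑ u : ZMod L, gk L t u * hw θ u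

theorem ph_deriv (θ t : ℝ) : HasDerivAt (ph L θ)
    (∑ u : ZMod L, gk L t u * (hw θ (u + 1) + hw θ (u - 1) - 2 * hw θ u)) t := by
  unfold ph
  have h1 := HasDerivAt.fun_sum (u := Finset.univ) fun (u : ZMod L) _ =>
    (Pool.Agent.Y998.ST.gk_deriv t u).mul_const (hw θ u)
  refine h1.congr_deriv ?_
  have e1 : ∑ u : ZMod L, gk L t (u + 1) * hw θ u = ∑ u : ZMod L, gk L t u * hw θ (u - 1) := by
    rw [← Equiv.sum_comp (Equiv.addRight (1 : ZMod L)) fun u => gk L t u * hw θ (u - 1)]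
    refine Finset.sum_congr rfl fun u _ => ?_
    rw [Equiv.coe_addRight, add_sub_cancel_right]
  have e2 : ∑ u : ZMod L, gk L t (u - 1) * hw θ u = ∑ u : ZMod L, gk L t u * hw θ (u + 1) := by
    rw [← Equiv.sum_comp (Equiv.subRight (1 : ZMod L)) fun u => gk L t u * hw θ (u + 1)]
    refine Finset.sum_congr rfl fun u _ => ?_
    rw [Equiv.subRight_apply, sub_add_cancel]
  have e3 : ∑ u : ZMod L, (gk L t (u + 1) + gk L t (u - 1) - 2 * gk L t u) * hw θ u =
      ∑ u : ZMod L, gk L t (u + 1) * hw θ u + ∑ u : ZMod L, gk L t (u - 1) * hw θ u -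
        ∑ u : ZMod L, 2 * gk L t u * hw θ u := by
    rw [← Finset.sum_add_distrib, ← Finset.sum_sub_distrib]
    refine Finset.sum_congr rfl fun u _ => ?_
    ring
  rw [e3, e1, e2, ← Finset.sum_add_distrib, ← Finset.sum_sub_distrib]
  refine Finset.sum_congr rfl fun u _ => ?_
  ring

theorem ph_le (hL : 3 ≤ L) (θ : ℝ) {t : ℝ} (ht : 0 ≤ t) :
    ph L θ t ≤ Real.exp (2 * (Real.cosh θ - 1) * t) := by
  set c : ℝ := 2 * (Real.cosh θ - 1) with hc
  have hd : ∀ s, HasDerivAt (fun s => Real.exp (-(c * s)) * ph L θ s)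
      (Real.exp (-(c * s)) * (-(c * 1)) * ph L θ s + Real.exp (-(c * s)) *
        (∑ u : ZMod L, gk L s u * (hw θ (u + 1) + hw θ (u - 1) - 2 * hw θ u))) s := fun s =>
    ((((hasDerivAt_id' s).const_mul c).fun_neg).exp).mul (ph_deriv θ s)
  have hanti : AntitoneOn (fun s => Real.exp (-(c * s)) * ph L θ s) (Set.Ici 0) := by
    refine antitoneOn_of_deriv_nonpos (convex_Ici 0) ?_ ?_ ?_
    · exact fun s _ => (hd s).continuousAt.continuousWithinAt
    · exact fun s _ => (hd s).differentiableAt.differentiableWithinAt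
    · intro s hs
      rw [interior_Ici] at hs
      have hs0 : 0 ≤ s := (Set.mem_Ioi.1 hs).le
      rw [(hd s).deriv]
      have h1 : ∑ u : ZMod L, gk L s u * (hw θ (u + 1) + hw θ (u - 1) - 2 * hw θ u) ≤
          c * ph L θ s := by
        unfold ph
        rw [Finset.mul_sum]
        refine Finset.sum_le_sum fun u _ => ?_
        have h2 := hw_step hL θ u
        have h3 := gk_nonneg hL hs0 u
        have h4 : hw θ (u + 1) + hw θ (u - 1) - 2 * hw θ u ≤ c * hw θ u := by
          rw [hc]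
          linarith
        calc gk L s u * (hw θ (u + 1) + hw θ (u - 1) - 2 * hw θ u) ≤ gk L s u * (c * hw θ u) :=
              mul_le_mul_of_nonneg_left h4 h3
          _ = c * (gk L s u * hw θ u) := by ring
      have h2 : 0 < Real.exp (-(c * s)) := Real.exp_pos _
      have h3 := mul_le_mul_of_nonneg_left h1 h2.le
      linarith
  have h0 := hanti (Set.mem_Ici.2 le_rfl) (Set.mem_Ici.2 ht) ht
  have e0 : Real.exp (-(c * 0)) * ph L θ 0 = 1 := by
    unfold ph
    simp only [Pool.Agent.Y998.ST.gk_zero, ite_mul, one_mul, zero_mul]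
    rw [Finset.sum_ite_eq', if_pos (Finset.mem_univ _)]
    unfold hw
    rw [ZMod.valMinAbs_zero]
    simp
  dsimp only at h0
  rw [e0] at h0
  have h2 : Real.exp (c * t) * (Real.exp (-(c * t)) * ph L θ t) ≤ Real.exp (c * t) * 1 :=
    mul_le_mul_of_nonneg_left h0 (Real.exp_pos _).le
  rw [← mul_assoc, ← Real.exp_add, add_neg_cancel, Real.exp_zero, one_mul, mul_one] at h2
  exact h2

theorem cosh_le' {θ : ℝ} (h0 : 0 ≤ θ) (h1 : θ ≤ 1) : Real.cosh θ - 1 ≤ θ ^ 2 := by
  have h2 := Real.cosh_le_exp_half_sq θ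
  have h3 : Real.exp (θ ^ 2 / 2) * (1 - θ ^ 2 / 2) ≤ 1 := by
    have h4 : 1 - θ ^ 2 / 2 ≤ Real.exp (-(θ ^ 2 / 2)) := by
      have := Real.add_one_le_exp (-(θ ^ 2 / 2))
      linarith
    calc Real.exp (θ ^ 2 / 2) * (1 - θ ^ 2 / 2) ≤ Real.exp (θ ^ 2 / 2) *
        Real.exp (-(θ ^ 2 / 2)) := mul_le_mul_of_nonneg_left h4 (Real.exp_pos _).le
      _ = 1 := by rw [← Real.exp_add, add_neg_cancel, Real.exp_zero]
  have h5 : θ ^ 2 ≤ 1 := by nlinarith
  have h6 : 0 ≤ θ ^ 2 := sq_nonneg θ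
  have h7 : Real.exp (θ ^ 2 / 2) ≤ 1 + θ ^ 2 := by
    by_contra hcon
    push Not at hcon
    have : (1 + θ ^ 2) * (1 - θ ^ 2 / 2) < Real.exp (θ ^ 2 / 2) * (1 - θ ^ 2 / 2) :=
      mul_lt_mul_of_pos_right hcon (by linarith)
    nlinarith
  linarith

end line

/-- job HKT -/
theorem hkt : S_HKT := by
  intro d hd
  refine ⟨2 ^ d * Real.exp (2 * d), ?_, ?_⟩
  · have h1 : (1 : ℝ) ≤ 2 ^ d := one_le_pow₀ (by norm_num)
    have h2 : (1 : ℝ) ≤ Real.exp (2 * d) := Real.one_le_exp (by positivity)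
    nlinarith
  intro L _ hL t ht D x
  set s : ℝ := Real.sqrt (t + 1) with hs
  have hs1 : 1 ≤ s := by
    rw [hs, Real.one_le_sqrt]
    linarith
  have hs2 : s ^ 2 = t + 1 := Real.sq_sqrt (by linarith)
  set θ : ℝ := 1 / s with hθ
  have hθ0 : 0 < θ := by positivity
  have hθ1 : θ ≤ 1 := by
    rw [hθ, div_le_one (by linarith)]
    exact hs1
  have hθt : θ ^ 2 * t ≤ 1 := by
    rw [hθ, div_pow, one_pow, hs2, div_mul_eq_mul_div, one_mul, div_le_one (by linarith)]
    linarith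
  -- the exponential moment
  have hmom : ∑ y : Fin d → ZMod L, qq (nnRate d L) t x y * ∏ i, hw θ (y i - x i) ≤
      Real.exp (2 * d) := by
    have h1 : ∑ y : Fin d → ZMod L, qq (nnRate d L) t x y * ∏ i, hw θ (y i - x i) =
        ∏ i : Fin d, ∑ u : ZMod L, gk L t (u - x i) * hw θ (u - x i) := by
      rw [Fintype.prod_sum]
      refine Finset.sum_congr rfl fun y _ => ?_
      rw [Pool.Agent.Y998.ST.qq_eq_hk hL]
      unfold hk
      rw [Finset.prod_mul_distrib]
    rw [h1]
    have h2 : ∀ i : Fin d, ∑ u : ZMod L, gk L t (u - x i) * hw θ (u - x i) = ph L θ t := by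
      intro i
      unfold ph
      exact Equiv.sum_comp (Equiv.subRight (x i)) fun u => gk L t u * hw θ u
    simp only [h2]
    rw [Finset.prod_const, Finset.card_univ, Fintype.card_fin]
    have h3 : ph L θ t ≤ Real.exp 2 := by
      refine (ph_le hL θ ht).trans (Real.exp_le_exp.2 ?_)
      have h4 := cosh_le' hθ0.le hθ1
      have h5 : (Real.cosh θ - 1) * t ≤ θ ^ 2 * t := mul_le_mul_of_nonneg_right h4 ht
      linarith
    have h4 : 0 ≤ ph L θ t := by
      unfold ph
      refine Finset.sum_nonneg fun u _ => mul_nonneg (gk_nonneg hL ht u) ?_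
      exact (Real.cosh_pos _).le
    calc ph L θ t ^ d ≤ Real.exp 2 ^ d := pow_le_pow_left₀ h4 h3 d
      _ = Real.exp (2 * d) := by
        rw [← Real.exp_nat_mul]
        congr 1
        ring
  -- lower bound of the weight
  have hlow : ∀ y : Fin d → ZMod L, (1 / 2) ^ d * Real.exp (θ * td x y) ≤
      ∏ i, hw θ (y i - x i) := by
    intro y
    have h1 : (1 / 2 : ℝ) ^ d * Real.exp (θ * td x y) =
        ∏ i : Fin d, (1 / 2 * Real.exp (θ * ((x i - y i).valMinAbs.natAbs : ℝ))) := by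
      rw [Finset.prod_mul_distrib, Finset.prod_const, Finset.card_univ, Fintype.card_fin,
        ← Real.exp_sum]
      unfold td
      push_cast
      rw [Finset.mul_sum]
    rw [h1]
    refine Finset.prod_le_prod (fun i _ => by positivity) fun i _ => ?_
    unfold hw
    have h2 : Real.cosh (θ * ((y i - x i).valMinAbs : ℝ)) =
        Real.cosh (θ * ((x i - y i).valMinAbs.natAbs : ℝ)) := by
      rw [← Real.cosh_abs, abs_mul, abs_of_pos hθ0]
      congr 2
      have h3 : (y i - x i).valMinAbs.natAbs = (x i - y i).valMinAbs.natAbs := by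
        rw [← ZMod.natAbs_valMinAbs_neg, neg_sub]
      rw [← h3, Nat.cast_natAbs, Int.cast_abs]
    rw [h2, Real.cosh_eq]
    have := Real.exp_pos (-(θ * ((x i - y i).valMinAbs.natAbs : ℝ)))
    linarith
  have hq0 : ∀ y, 0 ≤ qq (nnRate d L) t x y := fun y =>
    Pool.Agent.Y998.ST.qq_nonneg Pool.Agent.Y998.ST.nn_nonneg ht _ _
  have h1 : (1 / 2 : ℝ) ^ d * Real.exp (θ * D) *
      ∑ y ∈ univ.filter (fun y => D < td x y), qq (nnRate d L) t x y ≤ Real.exp (2 * d) := by
    refine le_trans ?_ hmom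
    rw [Finset.mul_sum]
    calc _ ≤ ∑ y ∈ univ.filter (fun y => D < td x y), qq (nnRate d L) t x y *
          ∏ i, hw θ (y i - x i) := by
          refine Finset.sum_le_sum fun y hy => ?_
          have hy' : D < td x y := (Finset.mem_filter.1 hy).2
          rw [mul_comm]
          refine mul_le_mul_of_nonneg_left ?_ (hq0 y)
          refine le_trans ?_ (hlow y)
          refine mul_le_mul_of_nonneg_left ?_ (by positivity)
          refine Real.exp_le_exp.2 (mul_le_mul_of_nonneg_left ?_ hθ0.le)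
          exact_mod_cast hy'.le
      _ ≤ _ := by
          refine Finset.sum_le_sum_of_subset_of_nonneg (Finset.filter_subset _ _) fun y _ _ => ?_
          refine mul_nonneg (hq0 y) (Finset.prod_nonneg fun i _ => ?_)
          exact (Real.cosh_pos _).le
  have h2 : (1 / 2 : ℝ) ^ d * Real.exp (θ * D) * (2 ^ d * Real.exp (-(θ * D))) = 1 := by
    have e1 : (1 / 2 : ℝ) ^ d * 2 ^ d = 1 := by
      rw [← mul_pow]
      norm_num
    have e2 : Real.exp (θ * D) * Real.exp (-(θ * D)) = 1 := by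
      rw [← Real.exp_add, add_neg_cancel, Real.exp_zero]
    calc _ = ((1 / 2 : ℝ) ^ d * 2 ^ d) * (Real.exp (θ * D) * Real.exp (-(θ * D))) := by ring
      _ = 1 := by rw [e1, e2, one_mul]
  have h3 : ∑ y ∈ univ.filter (fun y => D < td x y), qq (nnRate d L) t x y ≤
      2 ^ d * Real.exp (2 * d) * Real.exp (-(θ * D)) := by
    have h4 := mul_le_mul_of_nonneg_right h1
      (by positivity : (0 : ℝ) ≤ 2 ^ d * Real.exp (-(θ * D)))
    calc _ = ((1 / 2 : ℝ) ^ d * Real.exp (θ * D) * (2 ^ d * Real.exp (-(θ * D)))) *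
          ∑ y ∈ univ.filter (fun y => D < td x y), qq (nnRate d L) t x y := by
          rw [h2, one_mul]
      _ = (1 / 2 : ℝ) ^ d * Real.exp (θ * D) *
          (∑ y ∈ univ.filter (fun y => D < td x y), qq (nnRate d L) t x y) *
            (2 ^ d * Real.exp (-(θ * D))) := by ring
      _ ≤ _ := h4
      _ = _ := by ring
  refine h3.trans (mul_le_mul_of_nonneg_left (Real.exp_le_exp.2 (neg_le_neg ?_)) (by positivity))
  have hC1 : (1 : ℝ) ≤ 2 ^ d * Real.exp (2 * d) := by
    have h1 : (1 : ℝ) ≤ 2 ^ d := one_le_pow₀ (by norm_num)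
    have h2 : (1 : ℝ) ≤ Real.exp (2 * d) := Real.one_le_exp (by positivity)
    nlinarith
  rw [hθ, div_mul_eq_mul_div, one_mul]
  refine div_le_div_of_nonneg_left (Nat.cast_nonneg _) (by linarith) ?_
  nlinarith

section lower

variable {L : ℕ} [NeZero L]

/-- `|z ^ n - 1| ≤ n |z - 1|` on the unit circle -/
theorem pow_sub_one (z : ℂ) (hz : ‖z‖ = 1) (n : ℕ) : ‖z ^ n - 1‖ ≤ n * ‖z - 1‖ := by
  induction n with
  | zero => simp
  | succ n ih =>
    have e : z ^ (n + 1) - 1 = z * (z ^ n - 1) + (z - 1) := by ring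
    rw [e]
    refine (norm_add_le _ _).trans ?_
    rw [norm_mul, hz, one_mul]
    push_cast
    linarith

theorem norm_sub_one (z : ℂ) (hz : ‖z‖ = 1) : ‖z - 1‖ ^ 2 = 2 * (1 - z.re) := by
  rw [← Complex.normSq_eq_norm_sq] at *
  have h : Complex.normSq z = 1 := by rw [Complex.normSq_eq_norm_sq, hz, one_pow]
  rw [Complex.normSq_apply] at *
  simp only [Complex.sub_re, Complex.sub_im, Complex.one_re, Complex.one_im, sub_zero]
  linarith

theorem rc_nat (k : ZMod L) (n : ℕ) : 1 - rc (k * (n : ZMod L)) ≤ n ^ 2 * (1 - rc k) := by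
  have hz : ‖(ZMod.stdAddChar k : ℂ)‖ = 1 := AddChar.norm_apply _ k
  have e1 : (ZMod.stdAddChar (k * (n : ZMod L)) : ℂ) = (ZMod.stdAddChar k : ℂ) ^ n := by
    rw [← AddChar.map_nsmul_eq_pow, nsmul_eq_mul, mul_comm]
  have hz2 : ‖(ZMod.stdAddChar k : ℂ) ^ n‖ = 1 := by rw [norm_pow, hz, one_pow]
  have h1 := norm_sub_one _ hz
  have h2 := norm_sub_one _ hz2
  have h3 := pow_sub_one _ hz n
  have h4 : ‖(ZMod.stdAddChar k : ℂ) ^ n - 1‖ ^ 2 ≤ (n * ‖(ZMod.stdAddChar k : ℂ) - 1‖) ^ 2 :=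
    pow_le_pow_left₀ (norm_nonneg _) h3 2
  rw [mul_pow, h1, h2] at h4
  unfold rc
  rw [e1]
  nlinarith

theorem rc_even (x : ZMod L) : rc (-x) = rc x := by
  unfold rc
  rw [Pool.Agent.Y998.ST.rc_neg, Complex.conj_re]

theorem rc_av (k v : ZMod L) : 1 - rc (k * v) ≤ (av v : ℝ) ^ 2 * (lam k / 2) := by
  have h1 := rc_nat k (av v)
  have h2 : lam k / 2 = 1 - rc k := by
    unfold lam
    ring
  rw [h2]
  refine le_trans (le_of_eq ?_) h1
  unfold av
  rcases Int.natAbs_eq v.valMinAbs with h | h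
  · have e : ((v.valMinAbs.natAbs : ℕ) : ZMod L) = v := by
      have := ZMod.coe_valMinAbs v
      rw [h, Int.cast_natCast] at this
      exact this
    rw [e]
  · have e : ((v.valMinAbs.natAbs : ℕ) : ZMod L) = -v := by
      have h3 := ZMod.coe_valMinAbs v
      rw [h, Int.cast_neg, Int.cast_natCast, neg_eq_iff_eq_neg] at h3
      exact h3
    rw [e, mul_neg, rc_even]

theorem exp_bd {s : ℝ} : s * Real.exp (-s) ≤ Real.exp (-(s / 2)) := by
  have h1 : s ≤ Real.exp (s / 2) := by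
    have h2 := Real.add_one_le_exp (s / 4)
    have h3 : Real.exp (s / 2) = Real.exp (s / 4) * Real.exp (s / 4) := by
      rw [← Real.exp_add]
      congr 1
      ring
    by_cases hs : s ≤ 0
    · exact hs.trans (Real.exp_pos _).le
    · push Not at hs
      rw [h3]
      nlinarith [Real.exp_pos (s / 4), sq_nonneg (s / 4 - 1)]
  have h2 : Real.exp (-(s / 2)) = Real.exp (s / 2) * Real.exp (-s) := by
    rw [← Real.exp_add]
    congr 1
    ring
  rw [h2]
  exact mul_le_mul_of_nonneg_right h1 (Real.exp_pos _).le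

/-- continuity of the kernel -/
theorem gk_diff {t : ℝ} (ht : 0 < t) (v : ZMod L) :
    gk L t 0 - gk L t v ≤ (av v : ℝ) ^ 2 / (2 * t) * gk L (t / 2) 0 := by
  unfold gk
  have hL : (0 : ℝ) ≤ 1 / L := by positivity
  rw [← mul_sub, ← Finset.sum_sub_distrib, ← mul_assoc, mul_comm (_ / (2 * t)) (1 / (L : ℝ)),
    mul_assoc]
  refine mul_le_mul_of_nonneg_left ?_ hL
  rw [Finset.mul_sum]
  refine Finset.sum_le_sum fun k _ => ?_
  rw [mul_zero, Pool.Agent.Y998.ST.rc_zero, mul_one, mul_one]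
  have h1 := rc_av k v
  have h2 := exp_bd (s := t * lam k)
  have e1 : Real.exp (-(t * lam k)) - Real.exp (-(t * lam k)) * rc (k * v) =
      Real.exp (-(t * lam k)) * (1 - rc (k * v)) := by ring
  rw [e1]
  have e2 : t / 2 * lam k = t * lam k / 2 := by ring
  rw [e2]
  have hp := Real.exp_pos (-(t * lam k))
  calc Real.exp (-(t * lam k)) * (1 - rc (k * v)) ≤
        Real.exp (-(t * lam k)) * ((av v : ℝ) ^ 2 * (lam k / 2)) :=
        mul_le_mul_of_nonneg_left h1 hp.le
    _ = (av v : ℝ) ^ 2 / (2 * t) * (t * lam k * Real.exp (-(t * lam k))) := by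
        field_simp
    _ ≤ _ := mul_le_mul_of_nonneg_left h2 (by positivity)

theorem card_av (M : ℕ) : (univ.filter fun u : ZMod L => av u ≤ M).card ≤ 2 * M + 1 := by
  have h1 : (univ.filter fun u : ZMod L => av u ≤ M).card ≤ (Finset.Icc (-(M : ℤ)) M).card := by
    refine Finset.card_le_card_of_injOn ZMod.valMinAbs ?_ ?_
    · intro u hu
      have hu' : av u ≤ M := (Finset.mem_filter.1 hu).2
      unfold av at hu'
      rw [Finset.mem_coe, Finset.mem_Icc]
      omega
    · exact ZMod.injective_valMinAbs.injOn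
  rw [Int.card_Icc] at h1
  omega

/-- the kernel at zero -/
theorem gk_low (hL : 3 ≤ L) {t : ℝ} (ht : 1 ≤ t) : 1 / (52 * Real.sqrt t) ≤ gk L t 0 := by
  set s : ℝ := Real.sqrt t with hs
  have hs1 : 1 ≤ s := by
    rw [hs, Real.one_le_sqrt]
    exact ht
  have hs2 : s ^ 2 = t := Real.sq_sqrt (by linarith)
  set M : ℕ := ⌈5 * s⌉₊ with hM
  have hM1 : 5 * s ≤ M := Nat.le_ceil _
  have hM2 : (M : ℝ) < 5 * s + 1 := Nat.ceil_lt_add_one (by linarith)
  -- tail bound
  set r : ℝ := Real.sqrt (t / 2 + 1) with hr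
  have hr0 : 0 < r := Real.sqrt_pos.2 (by linarith)
  have hr2 : r ^ 2 = t / 2 + 1 := Real.sq_sqrt (by linarith)
  have hrs : 4 * r ≤ 5 * s := by nlinarith
  have htail : ∑ u ∈ univ.filter (fun u : ZMod L => ¬ av u ≤ M), gk L (t / 2) u ≤ 1 / 2 := by
    set θ : ℝ := 1 / r with hθ
    have hr1 : 1 ≤ r := by nlinarith
    have hθ0 : 0 < θ := by positivity
    have hθ1 : θ ≤ 1 := by
      rw [hθ, div_le_one hr0]
      exact hr1
    have h1 : ph L θ (t / 2) ≤ Real.exp 2 := by
      refine (ph_le hL θ (by linarith)).trans (Real.exp_le_exp.2 ?_)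
      have h4 := cosh_le' hθ0.le hθ1
      have h5 : θ ^ 2 * (t / 2) ≤ 1 := by
        rw [hθ, div_pow, one_pow, hr2, div_mul_eq_mul_div, one_mul, div_le_one (by linarith)]
        linarith
      have h6 : (Real.cosh θ - 1) * (t / 2) ≤ θ ^ 2 * (t / 2) :=
        mul_le_mul_of_nonneg_right h4 (by linarith)
      linarith
    have h2 : Real.exp 4 / 2 * ∑ u ∈ univ.filter (fun u : ZMod L => ¬ av u ≤ M),
        gk L (t / 2) u ≤ ph L θ (t / 2) := by
      unfold ph
      rw [Finset.mul_sum]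
      calc _ ≤ ∑ u ∈ univ.filter (fun u : ZMod L => ¬ av u ≤ M), gk L (t / 2) u * hw θ u := by
            refine Finset.sum_le_sum fun u hu => ?_
            have hu' : ¬ av u ≤ M := (Finset.mem_filter.1 hu).2
            rw [mul_comm]
            refine mul_le_mul_of_nonneg_left ?_ (gk_nonneg hL (by linarith) u)
            unfold hw
            rw [← Real.cosh_abs, abs_mul, abs_of_pos hθ0]
            have h3 : (M : ℝ) ≤ |(u.valMinAbs : ℝ)| := by
              have h4 : M ≤ u.valMinAbs.natAbs := by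
                unfold av at hu'
                omega
              have h5 : ((u.valMinAbs.natAbs : ℕ) : ℝ) = |(u.valMinAbs : ℝ)| := by
                rw [Nat.cast_natAbs, Int.cast_abs]
              rw [← h5]
              exact_mod_cast h4
            have h4 : 4 ≤ θ * |(u.valMinAbs : ℝ)| := by
              have h5 : θ * (4 * r) = 4 := by
                rw [hθ]
                field_simp
              have h6 : θ * (4 * r) ≤ θ * |(u.valMinAbs : ℝ)| :=
                mul_le_mul_of_nonneg_left (by linarith) hθ0.le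
              linarith
            rw [Real.cosh_eq]
            have h5 := Real.exp_le_exp.2 h4
            have h6 := Real.exp_pos (-(θ * |(u.valMinAbs : ℝ)|))
            linarith
        _ ≤ _ := by
            refine Finset.sum_le_sum_of_subset_of_nonneg (Finset.filter_subset _ _)
              fun u _ _ => ?_
            exact mul_nonneg (gk_nonneg hL (by linarith) u) (Real.cosh_pos _).le
    have h3 : Real.exp 4 = Real.exp 2 * Real.exp 2 := by
      rw [← Real.exp_add]
      norm_num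
    have h4 : 4 ≤ Real.exp 2 := by
      have h5 : Real.exp 2 = Real.exp 1 * Real.exp 1 := by
        rw [← Real.exp_add]
        norm_num
      have h6 := Real.exp_one_gt_d9
      nlinarith
    have h5 := h2.trans h1
    rw [h3] at h5
    set S := ∑ u ∈ univ.filter (fun u : ZMod L => ¬ av u ≤ M), gk L (t / 2) u with hS
    have hS0 : 0 ≤ S := Finset.sum_nonneg fun u _ => gk_nonneg hL (by linarith) u
    have h6 : Real.exp 2 * (Real.exp 2 / 2 * S) ≤ Real.exp 2 * 1 := by linarith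
    have h7 := le_of_mul_le_mul_left h6 (Real.exp_pos _)
    nlinarith
  have hhead : 1 / 2 ≤ ∑ u ∈ univ.filter (fun u : ZMod L => av u ≤ M), gk L (t / 2) u := by
    have h1 := Finset.sum_filter_add_sum_filter_not univ (fun u : ZMod L => av u ≤ M)
      (fun u => gk L (t / 2) u)
    rw [gk_sum hL] at h1
    linarith
  have hcs : (∑ u ∈ univ.filter (fun u : ZMod L => av u ≤ M), gk L (t / 2) u) ^ 2 ≤
      ((univ.filter fun u : ZMod L => av u ≤ M).card : ℝ) *
        ∑ u ∈ univ.filter (fun u : ZMod L => av u ≤ M), gk L (t / 2) u ^ 2 :=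
    sq_sum_le_card_mul_sum_sq
  have hsq : ∑ u ∈ univ.filter (fun u : ZMod L => av u ≤ M), gk L (t / 2) u ^ 2 ≤ gk L t 0 := by
    have h1 := gk_semi hL (t / 2) (t / 2)
    rw [add_halves] at h1
    rw [h1]
    calc _ ≤ ∑ u : ZMod L, gk L (t / 2) u ^ 2 :=
          Finset.sum_le_sum_of_subset_of_nonneg (Finset.filter_subset _ _)
            fun u _ _ => sq_nonneg _
      _ = _ := Finset.sum_congr rfl fun u _ => sq _
  have hcard : ((univ.filter fun u : ZMod L => av u ≤ M).card : ℝ) ≤ 13 * s := by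
    have h1 := card_av (L := L) M
    have h2 : ((univ.filter fun u : ZMod L => av u ≤ M).card : ℝ) ≤ 2 * M + 1 := by
      exact_mod_cast h1
    linarith
  have hg0 : 0 ≤ gk L t 0 := gk_nonneg hL (by linarith) 0
  have h1 : (1 / 2 : ℝ) ^ 2 ≤ 13 * s * gk L t 0 := by
    calc (1 / 2 : ℝ) ^ 2 ≤ (∑ u ∈ univ.filter (fun u : ZMod L => av u ≤ M),
          gk L (t / 2) u) ^ 2 := pow_le_pow_left₀ (by norm_num) hhead 2
      _ ≤ _ := hcs
      _ ≤ 13 * s * gk L t 0 :=
        mul_le_mul hcard hsq (Finset.sum_nonneg fun u _ => sq_nonneg _) (by linarith)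
  rw [div_le_iff₀ (by positivity)]
  nlinarith

theorem gk_lower (hL : 3 ≤ L) {t : ℝ} (ht : 1 ≤ t) (ht2 : t ≤ 2 * (L : ℝ) ^ 2) (v : ZMod L)
    (hv : (av v : ℝ) ≤ Real.sqrt t / 104) : 1 / (104 * Real.sqrt t) ≤ gk L t v := by
  have h1 := gk_low hL ht
  have h2 := gk_diff (L := L) (by linarith : 0 < t) v
  have h3 := Pool.Agent.Y998.ST.gk_le (L := L) (t := t / 2) (by linarith)
  set s : ℝ := Real.sqrt t with hs
  have hs1 : 1 ≤ s := by
    rw [hs, Real.one_le_sqrt]
    exact ht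
  have hs2 : s ^ 2 = t := Real.sq_sqrt (by linarith)
  have hL0 : (0 : ℝ) < L := by exact_mod_cast Nat.pos_of_ne_zero (NeZero.ne L)
  -- `√(t / 2) ≥ s / 2`, `L ≥ s / 2`
  have hr : s / 2 ≤ Real.sqrt (t / 2) := by
    apply Real.le_sqrt_of_sq_le
    nlinarith
  have hLs : s / 2 ≤ L := by
    by_contra hcon
    push Not at hcon
    nlinarith
  have h4 : gk L (t / 2) 0 ≤ 4 / s := by
    refine h3.trans ?_
    have e1 : 1 / (L : ℝ) ≤ 2 / s := by
      rw [div_le_div_iff₀ hL0 (by linarith)]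
      linarith
    have e2 : 1 / Real.sqrt (t / 2) ≤ 2 / s := by
      rw [div_le_div_iff₀ (by linarith) (by linarith)]
      linarith
    calc 1 / (L : ℝ) + 1 / Real.sqrt (t / 2) ≤ 2 / s + 2 / s := add_le_add e1 e2
      _ = 4 / s := by ring
  have h5 : (av v : ℝ) ^ 2 / (2 * t) * gk L (t / 2) 0 ≤ 1 / (104 * s) := by
    have e1 : (av v : ℝ) ^ 2 / (2 * t) ≤ 1 / 21632 := by
      rw [div_le_div_iff₀ (by linarith) (by norm_num)]
      have e3 : (av v : ℝ) ^ 2 ≤ (s / 104) ^ 2 := pow_le_pow_left₀ (Nat.cast_nonneg _) hv 2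
      nlinarith
    calc (av v : ℝ) ^ 2 / (2 * t) * gk L (t / 2) 0 ≤ 1 / 21632 * (4 / s) :=
          mul_le_mul e1 h4 (gk_nonneg hL (by linarith) 0) (by norm_num)
      _ ≤ 1 / (104 * s) := by
        rw [div_mul_div_comm, div_le_div_iff₀ (by positivity) (by positivity)]
        linarith
  have e : 1 / (52 * s) = 1 / (104 * s) + 1 / (104 * s) := by
    field_simp
    norm_num
  rw [e] at h1
  linarith

end lower

/-- job HKL -/
theorem hkl : S_HKL := by
  intro d hd
  refine ⟨104 ^ d, one_le_pow₀ (by norm_num), ?_⟩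
  intro L _ hL t ht ht2 x y hxy
  have hs1 : 1 ≤ Real.sqrt t := by
    rw [Real.one_le_sqrt]
    exact ht
  rw [Pool.Agent.Y998.ST.qq_eq_hk hL]
  unfold hk
  have h1 : ∀ i : Fin d, 1 / (104 * Real.sqrt t) ≤ gk L t (y i - x i) := by
    intro i
    apply gk_lower hL ht ht2
    have h2 : (av (y i - x i) : ℝ) ≤ td x y := by
      have h3 : av (y i - x i) = (x i - y i).valMinAbs.natAbs := by
        rw [← av_neg, neg_sub]
        rfl
      rw [h3]
      unfold td
      exact_mod_cast Finset.single_le_sum (f := fun i => (x i - y i).valMinAbs.natAbs)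
        (fun _ _ => Nat.zero_le _) (Finset.mem_univ i)
    refine h2.trans (hxy.trans ?_)
    refine div_le_div_of_nonneg_left (by linarith) (by norm_num) ?_
    calc (104 : ℝ) = 104 ^ 1 := by norm_num
      _ ≤ 104 ^ d := pow_le_pow_right₀ (by norm_num) hd
  have h2 : t ^ (-(d / 2 : ℝ)) / 104 ^ d = ∏ _i : Fin d, 1 / (104 * Real.sqrt t) := by
    rw [Finset.prod_const, Finset.card_univ, Fintype.card_fin, div_pow, one_pow, mul_pow]
    have e : t ^ (-(d / 2 : ℝ)) = 1 / Real.sqrt t ^ d := by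
      rw [Real.sqrt_eq_rpow, ← Real.rpow_natCast, ← Real.rpow_mul (by linarith),
        Real.rpow_neg (by linarith), one_div]
      congr 2
      ring
    rw [e]
    field_simp
  rw [h2]
  exact Finset.prod_le_prod (fun i _ => by positivity) fun i _ => h1 i

end Pool.Agent.Q229.LC.HK
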