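import Pool.Agent.Q229.LC.Defs

/-!
# Coalition partitions with many parts
-/

set_option autoImplicit false

namespace Q229.LC

theorem le_CL_iff {V : Type} [Finite V] (G : SimpleGraph V) (k : ℕ) (hk : 0 < k) :
    k ≤ CL G ↔ ∃ P : Set (Set V), LDCPartition G P ∧ k ≤ P.ncard := by
  have hb : BddAbove {m | ∃ P : Set (Set V), LDCPartition G P ∧ P.ncard = m} := by
    refine ⟨(Set.univ : Set (Set V)).ncard, ?_⟩
    rintro m ⟨P, _, rfl⟩
    exact Set.ncard_le_ncard (Set.subset_univ _) Set.finite_univ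
  constructor
  · intro h
    have hne : {m | ∃ P : Set (Set V), LDCPartition G P ∧ P.ncard = m}.Nonempty := by
      by_contra h0
      rw [Set.not_nonempty_iff_eq_empty] at h0
      unfold CL at h
      rw [h0] at h
      simp at h
      omega
    obtain ⟨P, hP, h1⟩ := Nat.sSup_mem hne hb
    exact ⟨P, hP, by rw [h1]; exact h⟩
  · rintro ⟨P, hP, h⟩
    exact h.trans (le_csSup hb ⟨P, hP, rfl⟩)

theorem key {V : Type} {G : SimpleGraph V} {B : Set (Finset V)}
    (hB : ∀ R ∈ B, R.card ≤ 5) (hLD : ∀ D : Set V, LDSet G D ↔ ∀ R ∈ B, ∃ v ∈ R, v ∈ D)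
    {P : Set (Set V)} (hP : LDCPartition G P) (hc : 10 ≤ P.ncard)
    {R0 : Finset V} (h0 : R0 ∈ B) (h02 : R0.card ≤ 2) :
    ∃ A1 A2 : Set V, Disjoint A1 A2 ∧
      (∀ R ∈ B, R.card ≤ 2 → (∃ v ∈ R, v ∈ A1) ∧ (∃ v ∈ R, v ∈ A2)) ∧
      (∀ R ∈ B, ¬ ∀ v ∈ R, v ∈ A1) ∧ (∀ R ∈ B, ¬ ∀ v ∈ R, v ∈ A2) := by
  classical
  obtain ⟨⟨hne, hpart⟩, hn, hco⟩ := hP
  choose pt hpt hpt' using fun v => (hpart v).exists
  have huniq : ∀ v X, X ∈ P → v ∈ X → pt v = X := fun v X hX hv =>
    (hpart v).unique ⟨hpt v, hpt' v⟩ ⟨hX, hv⟩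
  have him : ∀ (R : Finset V), ∀ X ∈ R.image pt, X ∈ P := by
    intro R X hX
    rw [Finset.mem_image] at hX
    obtain ⟨v, _, rfl⟩ := hX
    exact hpt v
  -- some set of the basis avoids a given part
  have avoid : ∀ X : Set V, ∃ R ∈ B, X ∉ R.image pt := by
    intro X
    by_cases hX : X ∈ P
    · have h1 := hn X hX
      rw [hLD] at h1
      push Not at h1
      obtain ⟨R, hR, h2⟩ := h1
      refine ⟨R, hR, fun h3 => ?_⟩
      rw [Finset.mem_image] at h3
      obtain ⟨v, hv, rfl⟩ := h3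
      exact h2 v hv (hpt' v)
    · exact ⟨R0, h0, fun h => hX (him _ _ h)⟩
  have cov : ∀ X ∈ P, ∀ Y ∈ P, LDSet G (X ∪ Y) → ∀ R ∈ B, X ∈ R.image pt ∨ Y ∈ R.image pt := by
    intro X hX Y hY h R hR
    rw [hLD] at h
    obtain ⟨v, hv, h1 | h1⟩ := h R hR
    · exact Or.inl (Finset.mem_image.2 ⟨v, hv, huniq v X hX h1⟩)
    · exact Or.inr (Finset.mem_image.2 ⟨v, hv, huniq v Y hY h1⟩)
  have single : ∀ R ∈ B, ∀ A : Set V, ¬ ∀ X ∈ R.image pt, X = A := by
    intro R hR A hA
    obtain ⟨R', hR', h1⟩ := avoid A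
    have h2 : P ⊆ ↑(insert A (R'.image pt)) := by
      intro X hX
      rw [Finset.mem_coe, Finset.mem_insert]
      by_cases hXA : X = A
      · exact Or.inl hXA
      right
      obtain ⟨Y, hY, _, _, _, _, h3⟩ := hco X hX
      rcases cov X hX Y hY h3 R hR with h4 | h4
      · exact absurd (hA _ h4) hXA
      · have h5 := hA _ h4
        subst h5
        exact (cov X hX Y hY h3 R' hR').resolve_right h1
    have h3 := Set.ncard_le_ncard h2 (Finset.finite_toSet _)
    rw [Set.ncard_coe_finset] at h3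
    have h4 := Finset.card_insert_le A (R'.image pt)
    have h5 : (R'.image pt).card ≤ R'.card := Finset.card_image_le
    have := hB _ hR'
    omega
  have pair : ∀ R ∈ B, ∀ R' ∈ B, R.card ≤ 2 → R'.card ≤ 2 → ∀ A ∈ R.image pt,
      A ∈ R'.image pt := by
    intro R hR R' hR' hRc hRc' A hA
    by_contra hA'
    have h1 : ((R.image pt).erase A).card ≤ 1 := by
      rw [Finset.card_erase_of_mem hA]
      have h5 : (R.image pt).card ≤ R.card := Finset.card_image_le
      omega
    rw [Finset.card_le_one_iff_subset_singleton] at h1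
    obtain ⟨A', h1⟩ := h1
    obtain ⟨R'', hR'', h2⟩ := avoid A'
    have h3 : P ⊆ ↑(R.image pt ∪ (R'.image pt ∪ R''.image pt)) := by
      intro X hX
      rw [Finset.mem_coe, Finset.mem_union, Finset.mem_union]
      obtain ⟨Y, hY, _, _, _, _, h3⟩ := hco X hX
      rcases cov X hX Y hY h3 R hR with h4 | h4
      · exact Or.inl h4
      right
      by_cases hYA : Y = A
      · subst hYA
        exact Or.inl ((cov X hX Y hY h3 R' hR').resolve_right hA')
      · have h5 : Y ∈ ({A'} : Finset (Set V)) := h1 (Finset.mem_erase.2 ⟨hYA, h4⟩)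
        rw [Finset.mem_singleton] at h5
        subst h5
        exact Or.inr ((cov X hX Y hY h3 R'' hR'').resolve_right h2)
    have h4 := Set.ncard_le_ncard h3 (Finset.finite_toSet _)
    rw [Set.ncard_coe_finset] at h4
    have h5 := Finset.card_union_le (R.image pt) (R'.image pt ∪ R''.image pt)
    have h6 := Finset.card_union_le (R'.image pt) (R''.image pt)
    have h7 : (R.image pt).card ≤ R.card := Finset.card_image_le
    have h8 : (R'.image pt).card ≤ R'.card := Finset.card_image_le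
    have h9 : (R''.image pt).card ≤ R''.card := Finset.card_image_le
    have := hB _ hR''
    omega
  have hc2 : (R0.image pt).card = 2 := by
    have h7 : (R0.image pt).card ≤ R0.card := Finset.card_image_le
    by_contra h8
    have h9 : (R0.image pt).card ≤ 1 := by omega
    rw [Finset.card_le_one_iff_subset_singleton] at h9
    obtain ⟨A, hA⟩ := h9
    exact single R0 h0 A fun X hX => Finset.mem_singleton.1 (hA hX)
  rw [Finset.card_eq_two] at hc2
  obtain ⟨A1, A2, hne12, h12⟩ := hc2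
  have hA1 : A1 ∈ R0.image pt := by rw [h12]; simp
  have hA2 : A2 ∈ R0.image pt := by rw [h12]; simp
  refine ⟨A1, A2, ?_, ?_, ?_, ?_⟩
  · rw [Set.disjoint_left]
    intro v h1 h2
    exact hne12 ((huniq v A1 (him _ _ hA1) h1).symm.trans (huniq v A2 (him _ _ hA2) h2))
  · intro R hR hRc
    have h1 := pair R0 h0 R hR h02 hRc A1 hA1
    have h2 := pair R0 h0 R hR h02 hRc A2 hA2
    rw [Finset.mem_image] at h1 h2
    obtain ⟨v, hv, rfl⟩ := h1
    obtain ⟨w, hw, rfl⟩ := h2
    exact ⟨⟨v, hv, hpt' v⟩, ⟨w, hw, hpt' w⟩⟩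
  · intro R hR h
    refine single R hR A1 fun X hX => ?_
    rw [Finset.mem_image] at hX
    obtain ⟨v, hv, rfl⟩ := hX
    exact huniq v A1 (him _ _ hA1) (h v hv)
  · intro R hR h
    refine single R hR A2 fun X hX => ?_
    rw [Finset.mem_image] at hX
    obtain ⟨v, hv, rfl⟩ := hX
    exact huniq v A2 (him _ _ hA2) (h v hv)

end Q229.LC
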