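import Pool.Agent.Q229.LC.Gad

/-!
# Locating-dominating coalitions: correctness of the reduction
-/

set_option autoImplicit false

namespace Q229.LC

variable {n m : ℕ} (c : Fin m → Fin n → Bool)

/-- The colour of a vertex. -/
def col (τ : Fin n → Bool) : Vt n m → Fin 10
  | .co i b => if τ i = b then 0 else 1
  | .cl _ _ b => if b = true then 0 else 1
  | .fr g i => if i = 0 then (if g = true then 0 else 1) else
      ⟨if g = true then i.1 + 5 else i.1 + 1, by split_ifs <;> omega⟩
  | .tr _ _ b => if b = true then 0 else 1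

theorem fiber_partition {V : Type} {k : ℕ} (f : V → Fin k) (hf : Function.Surjective f) :
    Setoid.IsPartition (Set.range fun a => f ⁻¹' {a}) ∧
      (Set.range fun a => f ⁻¹' {a}).ncard = k := by
  constructor
  · constructor
    · rintro ⟨a, ha⟩
      obtain ⟨v, hv⟩ := hf a
      have : v ∈ f ⁻¹' {a} := by simpa using hv
      rw [show f ⁻¹' {a} = ∅ from ha] at this
      exact this
    · intro v
      refine ⟨f ⁻¹' {f v}, ⟨⟨f v, rfl⟩, rfl⟩, ?_⟩
      rintro X ⟨⟨a, rfl⟩, hX⟩
      have : f v = a := by simpa using hX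
      rw [this]
  · have hi : Function.Injective fun a : Fin k => f ⁻¹' {a} := by
      intro a b hab
      obtain ⟨v, hv⟩ := hf a
      have h1 : v ∈ f ⁻¹' {a} := by simpa using hv
      have h2 : v ∈ f ⁻¹' {b} := by
        have h3 : f ⁻¹' {a} = f ⁻¹' {b} := hab
        rw [← h3]; exact h1
      have h4 : f v = b := by simpa using h2
      rw [← hv, h4]
    rw [← Set.image_univ, Set.ncard_image_of_injective _ hi, Set.ncard_univ]
    simp

theorem complete {τ : Fin n → Bool}
    (hτ : ∀ j, (∃ i, c j i = true ∧ τ i = true) ∧ (∃ i, c j i = true ∧ τ i = false)) :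
    ∃ P, LDCPartition (Gr c) P ∧ 10 ≤ P.ncard := by
  have hs : Function.Surjective (col (n := n) (m := m) τ) := by
    intro a
    fin_cases a
    · exact ⟨.fr true 0, rfl⟩
    · exact ⟨.fr false 0, rfl⟩
    · exact ⟨.fr false 1, rfl⟩
    · exact ⟨.fr false 2, rfl⟩
    · exact ⟨.fr false 3, rfl⟩
    · exact ⟨.fr false 4, rfl⟩
    · exact ⟨.fr true 1, rfl⟩
    · exact ⟨.fr true 2, rfl⟩
    · exact ⟨.fr true 3, rfl⟩
    · exact ⟨.fr true 4, rfl⟩
  obtain ⟨h1, h2⟩ := fiber_partition (col (n := n) (m := m) τ) hs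
  -- colours of pairs
  have mem : ∀ (v : Vt n m) a, v ∈ col τ ⁻¹' {a} ↔ col τ v = a := fun v a => Iff.rfl
  have hnot : ∀ a, ¬ LDSet (Gr c) (col τ ⁻¹' {a}) := by
    intro a
    rw [ldset_iff, hit_iff]
    rintro ⟨_, _, h3, h4, _⟩
    simp only [mem] at h3 h4
    have h5 := h3 false 0
    simp only [col] at h5
    have h6 : a = 0 ∨ a = 1 := by
      rcases h5 with h5 | h5
      · exact Or.inr h5.symm
      · exact Or.inl h5.symm
    rcases h6 with rfl | rfl
    · obtain ⟨i, hi⟩ := h4 false
      fin_cases i <;> simp [col, Fin.ext_iff] at hi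
    · obtain ⟨i, hi⟩ := h4 true
      fin_cases i <;> simp [col, Fin.ext_iff] at hi
  have hco : ∀ a b, a ≠ b → (a = 0 ∨ a = 1) → (a = 0 → b.1 < 6) → (a = 1 → b = 0 ∨ 6 ≤ b.1) →
      LDSet (Gr c) (col τ ⁻¹' {a} ∪ col τ ⁻¹' {b}) := by
    intro a b hab ha h3 h4
    rw [ldset_iff, hit_iff]
    simp only [Set.mem_union, mem]
    refine ⟨fun i => ?_, fun j r => ?_, fun g i => ?_, fun g => ?_, fun j b1 b2 => ?_⟩
    · rcases ha with rfl | rfl <;> cases h : τ i <;> simp [col, h]
    · rcases ha with rfl | rfl <;> simp [col]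
    · rcases ha with rfl | rfl <;> simp [col]
    · rcases ha with rfl | rfl
      · cases g
        · have h5 := h3 rfl
          by_cases hb : b.1 = 1
          · refine ⟨0, Or.inr ?_⟩
            rw [Fin.ext_iff, hb]
            rfl
          · have h6 : b.1 ≠ 0 := fun h => hab (Fin.ext h.symm)
            refine ⟨⟨b.1 - 1, by omega⟩, Or.inr ?_⟩
            have h7 : (⟨b.1 - 1, by omega⟩ : Fin 5) ≠ 0 := by
              rw [Ne, Fin.ext_iff]
              simp only [Fin.val_zero]
              omega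
            simp only [col, if_neg h7]
            rw [Fin.ext_iff]
            simp
            omega
        · exact ⟨0, Or.inl rfl⟩
      · cases g
        · exact ⟨0, Or.inl rfl⟩
        · rcases h4 rfl with rfl | h5
          · exact ⟨0, Or.inr rfl⟩
          · have := b.2
            refine ⟨⟨b.1 - 5, by omega⟩, Or.inr ?_⟩
            have h7 : (⟨b.1 - 5, by omega⟩ : Fin 5) ≠ 0 := by
              rw [Ne, Fin.ext_iff]
              simp only [Fin.val_zero]
              omega
            simp only [col, if_neg h7]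
            rw [Fin.ext_iff]
            simp
            omega
    · right; right
      obtain ⟨⟨i, hi, h5⟩, ⟨i', hi', h6⟩⟩ := hτ j
      rcases ha with rfl | rfl
      · exact ⟨i', hi', Or.inl (by simp [col, h6])⟩
      · exact ⟨i, hi, Or.inl (by simp [col, h5])⟩
  refine ⟨_, ⟨h1, ?_, ?_⟩, h2.ge⟩
  · rintro X ⟨a, rfl⟩
    exact hnot a
  · rintro X ⟨a, rfl⟩
    have main : ∃ b, b ≠ a ∧ LDSet (Gr c) (col τ ⁻¹' {a} ∪ col τ ⁻¹' {b}) := by
      by_cases h0 : a = 0
      · subst h0
        exact ⟨1, by decide, hco 0 1 (by decide) (Or.inl rfl) (by decide) (by decide)⟩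
      by_cases h6 : a.1 < 6
      · refine ⟨0, fun h => h0 h.symm, ?_⟩
        rw [Set.union_comm]
        exact hco 0 a (fun h => h0 h.symm) (Or.inl rfl) (fun _ => h6)
          (fun h => absurd h (by decide))
      · have h7 : (1 : Fin 10) ≠ a := by
          rintro rfl
          exact h6 (by decide)
        refine ⟨1, h7, ?_⟩
        rw [Set.union_comm]
        exact hco 1 a h7 (Or.inr rfl) (fun h => absurd h (by decide)) (fun _ => Or.inr (by omega))
    obtain ⟨b, hb, h3⟩ := main
    refine ⟨_, ⟨b, rfl⟩, ?_, ?_, hnot a, hnot b, h3⟩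
    · intro h4
      obtain ⟨v, hv⟩ := hs b
      have h5 : v ∈ col τ ⁻¹' {a} := by
        have h6 : col τ ⁻¹' {b} = col (n := n) (m := m) τ ⁻¹' {a} := h4
        rw [← h6]
        exact hv
      exact hb (hv.symm.trans h5)
    · rw [Set.disjoint_left]
      intro v h4 h5
      exact hb (h5.symm.trans h4)

theorem sound (hc : ∀ j, (Finset.univ.filter fun i => c j i = true).card ≤ 3)
    {P : Set (Set (Vt n m))} (hP : LDCPartition (Gr c) P) (h10 : 10 ≤ P.ncard) :
    ∃ τ : Fin n → Bool,
      ∀ j, (∃ i, c j i = true ∧ τ i = true) ∧ (∃ i, c j i = true ∧ τ i = false) := by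
  classical
  have hR0 : ({.tr false 0 false, .tr false 0 true} : Finset (Vt n m)) ∈ Bas c :=
    Or.inr (Or.inr (Or.inl ⟨false, 0, rfl⟩))
  obtain ⟨A1, A2, hdis, hp, hA1, hA2⟩ := key (bas_card c hc) (ldset_iff c) hP h10 hR0
    Finset.card_le_two
  have hpair : ∀ a b : Vt n m, ({a, b} : Finset (Vt n m)) ∈ Bas c →
      (a ∈ A1 ∧ b ∈ A2) ∨ (a ∈ A2 ∧ b ∈ A1) := by
    intro a b h
    obtain ⟨⟨v, hv, h1⟩, ⟨w, hw, h2⟩⟩ := hp _ h Finset.card_le_two
    simp only [Finset.mem_insert, Finset.mem_singleton] at hv hw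
    rw [Set.disjoint_left] at hdis
    rcases hv with rfl | rfl <;> rcases hw with rfl | rfl
    · exact absurd h2 (hdis h1)
    · exact Or.inl ⟨h1, h2⟩
    · exact Or.inr ⟨h2, h1⟩
    · exact absurd h2 (hdis h1)
  have hx : ∀ i, (.co i false : Vt n m) ∈ A1 ∨ .co i false ∈ A2 := fun i => by
    rcases hpair (.co i false) (.co i true) (Or.inl ⟨i, rfl⟩) with h | h
    · exact Or.inl h.1
    · exact Or.inr h.1
  have hb1 : ∀ j r, ∃ b, (.cl j r b : Vt n m) ∈ A1 := fun j r => by
    rcases hpair (.cl j r false) (.cl j r true) (Or.inr (Or.inl ⟨j, r, rfl⟩)) with h | h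
    · exact ⟨_, h.1⟩
    · exact ⟨_, h.2⟩
  have hb2 : ∀ j r, ∃ b, (.cl j r b : Vt n m) ∈ A2 := fun j r => by
    rcases hpair (.cl j r false) (.cl j r true) (Or.inr (Or.inl ⟨j, r, rfl⟩)) with h | h
    · exact ⟨_, h.2⟩
    · exact ⟨_, h.1⟩
  refine ⟨fun i => decide (.co i false ∈ A1), fun j => ⟨?_, ?_⟩⟩
  · by_contra h
    push Not at h
    obtain ⟨b, hb⟩ := hb2 j 1
    obtain ⟨b', hb'⟩ := hb2 j 2
    refine hA2 _ (Or.inr (Or.inr (Or.inr (Or.inr ⟨j, b, b', rfl⟩)))) ?_
    intro v hv
    simp only [Finset.mem_union, Finset.mem_insert, Finset.mem_singleton, Finset.mem_image,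
        Finset.mem_filter, Finset.mem_univ, true_and] at hv
    rcases hv with (rfl | rfl) | ⟨i, hi, rfl⟩
    · exact hb
    · exact hb'
    · have := h i hi
      rw [Ne, decide_eq_true_eq] at this
      exact (hx i).resolve_left this
  · by_contra h
    push Not at h
    obtain ⟨b, hb⟩ := hb1 j 1
    obtain ⟨b', hb'⟩ := hb1 j 2
    refine hA1 _ (Or.inr (Or.inr (Or.inr (Or.inr ⟨j, b, b', rfl⟩)))) ?_
    intro v hv
    simp only [Finset.mem_union, Finset.mem_insert, Finset.mem_singleton, Finset.mem_image,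
        Finset.mem_filter, Finset.mem_univ, true_and] at hv
    rcases hv with (rfl | rfl) | ⟨i, hi, rfl⟩
    · exact hb
    · exact hb'
    · have := h i hi
      rw [Ne, decide_eq_false_iff_not, not_not] at this
      exact this

theorem connected (hc : ∀ j, ∃ i, c j i = true) : (Gr c).Connected := by
  have h0 : ∀ v : Vt n m, (Gr c).Reachable v (.fr false 1) := by
    have hfr : ∀ g i, (Gr c).Reachable (.fr g i) (.fr false 1) := by
      have h1 : ∀ g i, (Gr c).Reachable (.fr g i) (.fr g 1) := by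
        intro g i
        by_cases h : i = 1
        · subst h; exact SimpleGraph.Reachable.refl _
        · exact SimpleGraph.Adj.reachable (by simp [Gr, E, h])
      intro g i
      refine (h1 g i).trans ?_
      cases g
      · exact SimpleGraph.Reachable.refl _
      · exact SimpleGraph.Adj.reachable (by simp [Gr, E])
    have hco : ∀ i, (Gr c).Reachable (.co i false) (.fr false 1) := fun i =>
      SimpleGraph.Adj.reachable (by simp [Gr, E])
    have h1 : ∀ j b, (Gr c).Reachable (.cl j 1 b) (.fr false 1) := by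
      intro j b
      obtain ⟨i, hi⟩ := hc j
      refine SimpleGraph.Reachable.trans (v := .co i false) ?_ (hco i)
      exact SimpleGraph.Adj.reachable (by simp [Gr, E, hi])
    have h2 : ∀ j b, (Gr c).Reachable (.cl j 0 b) (.fr false 1) := by
      intro j b
      refine SimpleGraph.Reachable.trans (v := .cl j 1 true) ?_ (h1 j true)
      exact SimpleGraph.Adj.reachable (by simp [Gr, E])
    rintro (⟨i, b⟩ | ⟨j, r, b⟩ | ⟨g, i⟩ | ⟨g, i, b⟩)
    · cases b
      · exact hco i
      · refine SimpleGraph.Reachable.trans (v := .co i false) ?_ (hco i)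
        exact SimpleGraph.Adj.reachable (by simp [Gr, E])
    · by_cases hr : r = 0
      · subst hr; exact h2 j b
      · refine SimpleGraph.Reachable.trans (v := .cl j 0 true) ?_ (h2 j true)
        exact SimpleGraph.Adj.reachable (by simp [Gr, E, hr])
    · exact hfr g i
    · refine SimpleGraph.Reachable.trans (v := .fr g i.succ) ?_ (hfr g i.succ)
      exact SimpleGraph.Adj.reachable (by simp [Gr, E])
  have : Nonempty (Vt n m) := ⟨.fr false 1⟩
  exact SimpleGraph.Connected.mk fun u v => (h0 u).trans (h0 v).symm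

end Q229.LC
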