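import Pool.Agent.Q292.LC.Stm3

/-! Project LC (helper292), lemma job NA1. -/

set_option autoImplicit false

namespace Pool.Agent.Q229.LC.NA1

open Finset Q292.LC

section dist

variable {d L : ℕ}

theorem td_triangle (x y z : Fin d → ZMod L) : td x z ≤ td x y + td y z := by
  unfold td
  rw [← Finset.sum_add_distrib]
  refine Finset.sum_le_sum fun i _ => ?_
  have h := ZMod.natAbs_valMinAbs_add_le (x i - y i) (y i - z i)
  rw [sub_add_sub_cancel] at h
  exact h.trans (Int.natAbs_add_le _ _)

theorem td_symm (x y : Fin d → ZMod L) : td x y = td y x := by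
  unfold td
  refine Finset.sum_congr rfl fun i _ => ?_
  rw [← ZMod.natAbs_valMinAbs_neg, neg_sub]

theorem td_step (hL : 3 ≤ L) (p : Fin d → ZMod L) (i : Fin d) :
    td p (Function.update p i (p i + 1)) ≤ 1 := by
  classical
  unfold td
  rw [Finset.sum_eq_single i]
  · rw [Function.update_self, sub_add_cancel_left, ZMod.natAbs_valMinAbs_neg]
    have h := ZMod.valMinAbs_natCast_of_le_half (n := L) (a := 1) (by omega)
    rw [Nat.cast_one] at h
    rw [h]
    rfl
  · intro j _ hj
    rw [Function.update_of_ne hj, sub_self, ZMod.valMinAbs_zero]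
    rfl
  · intro h
    exact absurd (Finset.mem_univ i) h

end dist

section line

variable {d L : ℕ} [NeZero L]

theorem sum_inj {α : Type} [Fintype α] [DecidableEq α] (F : α → ℝ) (hF : ∀ x, 0 ≤ F x)
    (N : ℕ) (p : ℕ → α) (hp : ∀ i < N, ∀ j < N, p i = p j → i = j) :
    ∑ j ∈ range N, F (p j) ≤ ∑ x, F x := by
  rw [← Finset.sum_image (s := range N) (g := p) (f := F)]
  · exact Finset.sum_le_sum_of_subset_of_nonneg (Finset.subset_univ _) fun x _ _ => hF x
  · intro i hi j hj h
    exact hp i (Finset.mem_range.1 hi) j (Finset.mem_range.1 hj) h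

/-- the term of an edge -/
noncomputable def T (H : Finset (Fin d → ZMod L)) (g : (Fin d → ZMod L) → ℝ)
    (p : Fin d → ZMod L) (i : Fin d) : ℝ :=
  if (ed (p, i)).1 ∉ H ∧ (ed (p, i)).2 ∉ H then (g (ed (p, i)).1 - g (ed (p, i)).2) ^ 2 else 0

theorem T_nonneg (H : Finset (Fin d → ZMod L)) (g : (Fin d → ZMod L) → ℝ)
    (p : Fin d → ZMod L) (i : Fin d) : 0 ≤ T H g p i := by
  unfold T
  split_ifs
  · exact sq_nonneg _
  · exact le_rfl

theorem T_eq (H : Finset (Fin d → ZMod L)) (g : (Fin d → ZMod L) → ℝ)
    (p q : Fin d → ZMod L) (i : Fin d) (hq : q = Function.update p i (p i + 1)) (h1 : p ∉ H)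
    (h2 : q ∉ H) : (g p - g q) ^ 2 = T H g p i := by
  unfold T ed
  rw [← hq, if_pos ⟨h1, h2⟩]

theorem na1_aux (a b : Fin d) (hab : a ≠ b) (z : Fin d → ZMod L) (R : ℕ)
    (hL : 4 * R + 8 ≤ L) (H : Finset (Fin d → ZMod L)) (g : (Fin d → ZMod L) → ℝ)
    (hg : ∀ y, 0 ≤ g y) (hgz : ∀ y, y ∉ bal z R → g y = 0) (hgH : ∀ y ∈ H, g y = 0)
    (hsep : ∀ h ∈ H ∩ bal z (R + 3), ∀ h' ∈ H ∩ bal z (R + 3), h ≠ h' → 3 < td h h') :
    (∑ y, (g y) ^ 2) ^ 3 ≤ 100 * (∑ y, g y) ^ 4 * ∑ p, (T H g p a + T H g p b) := by
  classical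
  have hE0 : 0 ≤ ∑ p, (T H g p a + T H g p b) :=
    Finset.sum_nonneg fun p _ => add_nonneg (T_nonneg _ _ _ _) (T_nonneg _ _ _ _)
  have hL3 : 3 ≤ L := by omega
  have h1ne : (1 : ZMod L) ≠ 0 := by
    have := ZMod.natCast_eq_zero_iff 1 L
    rw [Nat.cast_one] at this
    rw [Ne, this]
    intro h
    have := Nat.le_of_dvd one_pos h
    omega
  have hstep : ∀ (w : ZMod L), w + 1 ≠ w := fun w h => h1ne (by simpa using h)
  obtain ⟨y, _, hy⟩ := Finset.exists_max_image univ g ⟨z, Finset.mem_univ z⟩
  have hmax : ∀ x, g x ≤ g y := fun x => hy x (Finset.mem_univ x)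
  set M := g y with hM
  have hM0 : 0 ≤ M := hg y
  -- elementary bound
  have hG2 : ∑ x, g x ^ 2 ≤ M * ∑ x, g x := by
    rw [Finset.mul_sum]
    refine Finset.sum_le_sum fun x _ => ?_
    rw [sq]
    exact mul_le_mul_of_nonneg_right (hmax x) (hg x)
  have hG20 : 0 ≤ ∑ x, g x ^ 2 := Finset.sum_nonneg fun x _ => sq_nonneg _
  have hG10 : 0 ≤ ∑ x, g x := Finset.sum_nonneg fun x _ => hg x
  by_cases hMz : M = 0
  · have h0 : ∑ x, g x ^ 2 = 0 := by
      rw [hMz, zero_mul] at hG2
      exact le_antisymm hG2 hG20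
    rw [h0, zero_pow (by norm_num)]
    exact mul_nonneg (by positivity) hE0
  have hyB : td z y ≤ R := by
    by_contra hcon
    apply hMz
    apply hgz
    intro hmem
    exact hcon (Finset.mem_filter.1 hmem).2
  have hyH : y ∉ H := fun h => hMz (hgH y h)
  have hg0 : ∀ q, R < td z q → g q = 0 := by
    intro q hq
    apply hgz
    intro hmem
    have := (Finset.mem_filter.1 hmem).2
    omega
  -- the shifts
  let S0 : (Fin d → ZMod L) → (Fin d → ZMod L) := fun p => Function.update p a (p a + 1)
  let S1 : (Fin d → ZMod L) → (Fin d → ZMod L) := fun p => Function.update p b (p b + 1)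
  have hcomm : ∀ p, S1 (S0 p) = S0 (S1 p) := by
    intro p
    simp only [S0, S1]
    rw [Function.update_of_ne hab.symm, Function.update_of_ne hab,
      Function.update_comm hab.symm]
  have hS0 : ∀ p, td p (S0 p) ≤ 1 := fun p => td_step hL3 p a
  have hS1 : ∀ p, td p (S1 p) ≤ 1 := fun p => td_step hL3 p b
  have hS0z : ∀ p, td z (S0 p) ≤ td z p + 1 ∧ td z p ≤ td z (S0 p) + 1 := by
    intro p
    have h1 := td_triangle z p (S0 p)
    have h2 := td_triangle z (S0 p) p
    rw [td_symm (S0 p) p] at h2
    have := hS0 p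
    omega
  have hS1z : ∀ p, td z (S1 p) ≤ td z p + 1 ∧ td z p ≤ td z (S1 p) + 1 := by
    intro p
    have h1 := td_triangle z p (S1 p)
    have h2 := td_triangle z (S1 p) p
    rw [td_symm (S1 p) p] at h2
    have := hS1 p
    omega
  have hS0ne : ∀ p, S0 p ≠ p := by
    intro p h
    have := congrFun h a
    simp only [S0, Function.update_self] at this
    exact hstep _ this
  have hS1ne : ∀ p, S1 p ≠ p := by
    intro p h
    have := congrFun h b
    simp only [S1, Function.update_self] at this
    exact hstep _ this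
  have hS01 : ∀ p, S0 p ≠ S1 p := by
    intro p h
    have := congrFun h a
    simp only [S0, S1, Function.update_self, Function.update_of_ne hab] at this
    exact hstep _ this
  have hS10 : ∀ p, S1 (S0 p) ≠ p := by
    intro p h
    have := congrFun h b
    simp only [S0, S1, Function.update_self, Function.update_of_ne hab.symm] at this
    exact hstep _ this
  -- points near a hole are no holes
  have hole : ∀ h ∈ H, td z h ≤ R + 1 → ∀ q, q ≠ h → td h q ≤ 2 → q ∉ H := by
    intro h hh hz q hq hd hqH
    have h1 : h ∈ H ∩ bal z (R + 3) := Finset.mem_inter.2 ⟨hh, Finset.mem_filter.2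
      ⟨Finset.mem_univ _, by omega⟩⟩
    have h2 : q ∈ H ∩ bal z (R + 3) := Finset.mem_inter.2 ⟨hqH, Finset.mem_filter.2
      ⟨Finset.mem_univ _, by have := td_triangle z h q; omega⟩⟩
    have := hsep h h1 q h2 (Ne.symm hq)
    omega
  let gh : (Fin d → ZMod L) → ℝ := fun p => if p ∈ H then g (S1 p) else g p
  have gh0 : ∀ p, 0 ≤ gh p := by
    intro p
    simp only [gh]
    split_ifs <;> exact hg _
  have ghsq : ∀ p, gh p ^ 2 ≤ g p ^ 2 + g (S1 p) ^ 2 := by
    intro p
    simp only [gh]
    split_ifs
    · have := sq_nonneg (g p)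
      linarith
    · have := sq_nonneg (g (S1 p))
      linarith
  -- differences
  have hdiff : ∀ p, (gh p - gh (S0 p)) ^ 2 ≤
      2 * (T H g p a + T H g (S1 p) a + T H g p b + T H g (S0 p) b) := by
    intro p
    have t1 := T_nonneg H g p a
    have t2 := T_nonneg H g (S1 p) a
    have t3 := T_nonneg H g p b
    have t4 := T_nonneg H g (S0 p) b
    have key : ∀ u v w : ℝ, (u - w) ^ 2 ≤ 2 * ((u - v) ^ 2 + (v - w) ^ 2) := by
      intro u v w
      nlinarith [sq_nonneg ((u - v) - (v - w))]
    by_cases hp : p ∈ H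
    · by_cases hp' : S0 p ∈ H
      · -- both are holes
        have hfar : R + 3 ≤ td z p ∧ R + 3 ≤ td z (S0 p) := by
          by_cases hc : td z p ≤ R + 3 ∧ td z (S0 p) ≤ R + 3
          · exfalso
            have h1 : p ∈ H ∩ bal z (R + 3) := Finset.mem_inter.2 ⟨hp, Finset.mem_filter.2
              ⟨Finset.mem_univ _, hc.1⟩⟩
            have h2 : S0 p ∈ H ∩ bal z (R + 3) := Finset.mem_inter.2 ⟨hp', Finset.mem_filter.2
              ⟨Finset.mem_univ _, hc.2⟩⟩
            have h3 := hsep p h1 (S0 p) h2 (Ne.symm (hS0ne p))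
            have h4 := hS0 p
            omega
          · have := hS0z p
            omega
        have e1 : gh p = 0 := by
          simp only [gh]
          rw [if_pos hp]
          apply hg0
          have := (hS1z p).2
          omega
        have e2 : gh (S0 p) = 0 := by
          simp only [gh]
          rw [if_pos hp']
          apply hg0
          have := (hS1z (S0 p)).2
          omega
        rw [e1, e2]
        linarith
      · -- `p` is a hole
        by_cases hz : td z p ≤ R + 1
        · have n1 : S1 p ∉ H := hole p hp hz _ (hS1ne p) (by have := hS1 p; omega)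
          have n2 : S1 (S0 p) ∉ H := hole p hp hz _ (hS10 p) (by
            have h1 := td_triangle p (S0 p) (S1 (S0 p))
            have h2 := hS0 p
            have h3 := hS1 (S0 p)
            omega)
          have e1 : gh p = g (S1 p) := if_pos hp
          have e2 : gh (S0 p) = g (S0 p) := if_neg hp'
          have f1 : (g (S1 p) - g (S1 (S0 p))) ^ 2 = T H g (S1 p) a :=
            T_eq H g _ _ a (hcomm p) n1 n2
          have f2 : (g (S0 p) - g (S1 (S0 p))) ^ 2 = T H g (S0 p) b :=
            T_eq H g _ _ b rfl hp' n2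
          rw [e1, e2]
          have := key (g (S1 p)) (g (S1 (S0 p))) (g (S0 p))
          have e3 : (g (S1 (S0 p)) - g (S0 p)) ^ 2 = (g (S0 p) - g (S1 (S0 p))) ^ 2 := by ring
          rw [e3, f1, f2] at this
          linarith
        · have e1 : gh p = 0 := by
            simp only [gh]
            rw [if_pos hp]
            apply hg0
            have := (hS1z p).2
            omega
          have e2 : gh (S0 p) = 0 := by
            simp only [gh]
            rw [if_neg hp']
            apply hg0
            have := (hS0z p).2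
            omega
          rw [e1, e2]
          linarith
    · by_cases hp' : S0 p ∈ H
      · by_cases hz : td z (S0 p) ≤ R + 1
        · have n1 : S1 p ∉ H := hole (S0 p) hp' hz _ (Ne.symm (hS01 p)) (by
            have h1 := td_triangle (S0 p) p (S1 p)
            rw [td_symm (S0 p) p] at h1
            have h2 := hS0 p
            have h3 := hS1 p
            omega)
          have n2 : S1 (S0 p) ∉ H := hole (S0 p) hp' hz _ (hS1ne (S0 p)) (by
            have := hS1 (S0 p)
            omega)
          have e1 : gh p = g p := if_neg hp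
          have e2 : gh (S0 p) = g (S1 (S0 p)) := if_pos hp'
          have f1 : (g (S1 p) - g (S1 (S0 p))) ^ 2 = T H g (S1 p) a :=
            T_eq H g _ _ a (hcomm p) n1 n2
          have f2 : (g p - g (S1 p)) ^ 2 = T H g p b := T_eq H g _ _ b rfl hp n1
          rw [e1, e2]
          have := key (g p) (g (S1 p)) (g (S1 (S0 p)))
          rw [f1, f2] at this
          linarith
        · have e1 : gh p = 0 := by
            simp only [gh]
            rw [if_neg hp]
            apply hg0
            have := (hS0z p).1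
            omega
          have e2 : gh (S0 p) = 0 := by
            simp only [gh]
            rw [if_pos hp']
            apply hg0
            have := (hS1z (S0 p)).2
            omega
          rw [e1, e2]
          linarith
      · have e1 : gh p = g p := if_neg hp
        have e2 : gh (S0 p) = g (S0 p) := if_neg hp'
        have f1 : (g p - g (S0 p)) ^ 2 = T H g p a := T_eq H g _ _ a rfl hp hp'
        rw [e1, e2, f1]
        linarith
  -- the line
  set N : ℕ := 2 * R + 2 with hN
  let p : ℕ → (Fin d → ZMod L) := fun j => Function.update y a (y a + j)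
  have hp0 : p 0 = y := by
    simp only [p, Nat.cast_zero, add_zero, Function.update_eq_self]
  have hpS : ∀ j, S0 (p j) = p (j + 1) := by
    intro j
    simp only [p, S0, Function.update_self, Function.update_idem]
    congr 1
    push_cast
    ring
  have hpinj : ∀ i < N + 1, ∀ j < N + 1, p i = p j → i = j := by
    intro i hi j hj h
    have h1 := congrFun h a
    simp only [p, Function.update_self] at h1
    have h2 : (i : ZMod L) = j := add_left_cancel h1
    have h3 := (ZMod.natCast_eq_natCast_iff' i j L).1 h2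
    rwa [Nat.mod_eq_of_lt (by omega), Nat.mod_eq_of_lt (by omega)] at h3
  have hend : R + 1 < td z (p N) := by
    by_contra hcon
    push Not at hcon
    have h1 : (z a - y a).valMinAbs.natAbs ≤ R :=
      (Finset.single_le_sum (f := fun i => (z i - y i).valMinAbs.natAbs)
        (fun _ _ => Nat.zero_le _) (Finset.mem_univ a)).trans hyB
    have h2 : (z a - p N a).valMinAbs.natAbs ≤ R + 1 :=
      (Finset.single_le_sum (f := fun i => (z i - p N i).valMinAbs.natAbs)
        (fun _ _ => Nat.zero_le _) (Finset.mem_univ a)).trans hcon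
    have h3 : (((z a - y a).valMinAbs - (z a - p N a).valMinAbs - N : ℤ) : ZMod L) = 0 := by
      push_cast
      simp only [p, Function.update_self]
      ring
    rw [ZMod.intCast_zmod_eq_zero_iff_dvd] at h3
    have h4 := Int.le_of_dvd (a := (L : ℤ))
      (b := -((z a - y a).valMinAbs - (z a - p N a).valMinAbs - N)) (by omega)
      ((dvd_neg).2 h3)
    omega
  have hghN : gh (p N) = 0 := by
    simp only [gh]
    split_ifs
    · apply hg0
      have := (hS1z (p N)).2
      omega
    · apply hg0
      omega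
  have hgh0 : gh (p 0) = M := by
    rw [hp0]
    exact if_neg hyH
  -- telescoping
  have htel : M ^ 2 = ∑ j ∈ range N, (gh (p j) ^ 2 - gh (p (j + 1)) ^ 2) := by
    rw [Finset.sum_range_sub', hghN, hgh0]
    ring
  have hle : M ^ 2 ≤ ∑ j ∈ range N, |gh (p j) - gh (p (j + 1))| *
      (gh (p j) + gh (p (j + 1))) := by
    rw [htel]
    refine Finset.sum_le_sum fun j _ => ?_
    have h1 : gh (p j) ^ 2 - gh (p (j + 1)) ^ 2 = (gh (p j) - gh (p (j + 1))) *
        (gh (p j) + gh (p (j + 1))) := by ring
    rw [h1]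
    exact mul_le_mul_of_nonneg_right (le_abs_self _) (add_nonneg (gh0 _) (gh0 _))
  have hcs := Finset.sum_mul_sq_le_sq_mul_sq (range N) (fun j => |gh (p j) - gh (p (j + 1))|)
    (fun j => gh (p j) + gh (p (j + 1)))
  -- the sum of the squares of the differences
  set E := ∑ q, (T H g q a + T H g q b) with hE
  have hEa : ∑ q, T H g q a + ∑ q, T H g q b = E := by
    rw [hE, Finset.sum_add_distrib]
  have hpinj1 : ∀ i < N, ∀ j < N, p i = p j → i = j := fun i hi j hj =>
    hpinj i (by omega) j (by omega)
  have hpinj2 : ∀ i < N, ∀ j < N, p (i + 1) = p (j + 1) → i = j := fun i hi j hj h => by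
    have := hpinj (i + 1) (by omega) (j + 1) (by omega) h
    omega
  have hS1inj : Function.Injective S1 := by
    intro u v h
    have h1 : ∀ i, i ≠ b → u i = v i := by
      intro i hi
      have := congrFun h i
      simp only [S1, Function.update_of_ne hi] at this
      exact this
    funext i
    by_cases hi : i = b
    · subst hi
      have := congrFun h i
      simp only [S1, Function.update_self] at this
      exact add_right_cancel this
    · exact h1 i hi
  have hpinj3 : ∀ i < N, ∀ j < N, S1 (p i) = S1 (p j) → i = j := fun i hi j hj h =>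
    hpinj1 i hi j hj (hS1inj h)
  have hpinj4 : ∀ i < N, ∀ j < N, S1 (p (i + 1)) = S1 (p (j + 1)) → i = j := fun i hi j hj h =>
    hpinj2 i hi j hj (hS1inj h)
  have hD : ∑ j ∈ range N, |gh (p j) - gh (p (j + 1))| ^ 2 ≤ 4 * E := by
    have h1 : ∑ j ∈ range N, |gh (p j) - gh (p (j + 1))| ^ 2 ≤
        ∑ j ∈ range N, 2 * (T H g (p j) a + T H g (S1 (p j)) a + T H g (p j) b +
          T H g (p (j + 1)) b) := by
      refine Finset.sum_le_sum fun j _ => ?_
      rw [sq_abs]
      have := hdiff (p j)
      rw [hpS] at this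
      exact this
    rw [← Finset.mul_sum, Finset.sum_add_distrib, Finset.sum_add_distrib,
      Finset.sum_add_distrib] at h1
    have s1 := sum_inj (fun q => T H g q a) (fun q => T_nonneg H g q a) N p hpinj1
    have s2 := sum_inj (fun q => T H g q a) (fun q => T_nonneg H g q a) N (fun j => S1 (p j))
      hpinj3
    have s3 := sum_inj (fun q => T H g q b) (fun q => T_nonneg H g q b) N p hpinj1
    have s4 := sum_inj (fun q => T H g q b) (fun q => T_nonneg H g q b) N (fun j => p (j + 1))
      hpinj2
    linarith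
  have hSq : ∑ j ∈ range N, (gh (p j) + gh (p (j + 1))) ^ 2 ≤ 8 * ∑ x, g x ^ 2 := by
    have h1 : ∑ j ∈ range N, (gh (p j) + gh (p (j + 1))) ^ 2 ≤
        ∑ j ∈ range N, 2 * (g (p j) ^ 2 + g (S1 (p j)) ^ 2 + g (p (j + 1)) ^ 2 +
          g (S1 (p (j + 1))) ^ 2) := by
      refine Finset.sum_le_sum fun j _ => ?_
      have h2 := ghsq (p j)
      have h3 := ghsq (p (j + 1))
      nlinarith [sq_nonneg (gh (p j) - gh (p (j + 1)))]
    rw [← Finset.mul_sum, Finset.sum_add_distrib, Finset.sum_add_distrib,
      Finset.sum_add_distrib] at h1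
    have s1 := sum_inj (fun q => g q ^ 2) (fun q => sq_nonneg _) N p hpinj1
    have s2 := sum_inj (fun q => g q ^ 2) (fun q => sq_nonneg _) N (fun j => S1 (p j)) hpinj3
    have s3 := sum_inj (fun q => g q ^ 2) (fun q => sq_nonneg _) N (fun j => p (j + 1)) hpinj2
    have s4 := sum_inj (fun q => g q ^ 2) (fun q => sq_nonneg _) N (fun j => S1 (p (j + 1)))
      hpinj4
    linarith
  have hM4 : M ^ 4 ≤ 32 * E * ∑ x, g x ^ 2 := by
    calc M ^ 4 = (M ^ 2) ^ 2 := by ring
      _ ≤ (∑ j ∈ range N, |gh (p j) - gh (p (j + 1))| *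
          (gh (p j) + gh (p (j + 1)))) ^ 2 := pow_le_pow_left₀ (sq_nonneg M) hle 2
      _ ≤ _ := hcs
      _ ≤ 4 * E * (8 * ∑ x, g x ^ 2) :=
        mul_le_mul hD hSq (Finset.sum_nonneg fun _ _ => sq_nonneg _) (by positivity)
      _ = _ := by ring
  set G2 := ∑ x, g x ^ 2 with hG2d
  set G1 := ∑ x, g x with hG1d
  by_cases hG : G2 = 0
  · rw [hG, zero_pow (by norm_num)]
    exact mul_nonneg (by positivity) hE0
  have hGpos : 0 < G2 := lt_of_le_of_ne hG20 (Ne.symm hG)
  have h4 : G2 ^ 4 ≤ M ^ 4 * G1 ^ 4 := by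
    rw [← mul_pow]
    exact pow_le_pow_left₀ hG20 hG2 4
  have h5 : G2 ^ 4 ≤ 32 * E * G2 * G1 ^ 4 :=
    h4.trans (mul_le_mul_of_nonneg_right hM4 (by positivity))
  have h6 : G2 * G2 ^ 3 ≤ G2 * (32 * E * G1 ^ 4) := by
    calc G2 * G2 ^ 3 = G2 ^ 4 := by ring
      _ ≤ _ := h5
      _ = _ := by ring
  have h7 := le_of_mul_le_mul_left h6 hGpos
  have h8 : 0 ≤ E * G1 ^ 4 := by positivity
  nlinarith

end line

/-- job NA1 -/
theorem na1 : S_NA1 := by
  intro d L _ hd z R hL H g hg hgz hgH hsep
  have h := na1_aux (⟨0, by omega⟩ : Fin d) (⟨1, by omega⟩ : Fin d)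
    (by intro h; have := congrArg Fin.val h; simp at this) z R hL H g hg hgz hgH hsep
  refine h.trans ?_
  refine mul_le_mul_of_nonneg_left ?_ (mul_nonneg (by norm_num) (by positivity))
  have e : ∑ i : (Fin d → ZMod L) × Fin d, (if (ed i).1 ∉ H ∧ (ed i).2 ∉ H then
      (g (ed i).1 - g (ed i).2) ^ 2 else 0) = ∑ p : Fin d → ZMod L, ∑ i : Fin d, T H g p i := by
    rw [Fintype.sum_prod_type]
    rfl
  rw [e]
  refine Finset.sum_le_sum fun p _ => ?_
  classical
  have h2 : ∑ i ∈ ({(⟨0, by omega⟩ : Fin d), (⟨1, by omega⟩ : Fin d)} : Finset (Fin d)),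
      T H g p i ≤ ∑ i : Fin d, T H g p i :=
    Finset.sum_le_sum_of_subset_of_nonneg (Finset.subset_univ _) fun i _ _ => T_nonneg H g p i
  rw [Finset.sum_pair (by intro h; have := congrArg Fin.val h; simp at this)] at h2
  exact h2

end Pool.Agent.Q229.LC.NA1
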