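import Pool.Agent.Q229.LC.Main
import Pool.Agent.Q229.Base
import Pool.Agent.H648R3.WC.Nae
import Pool.Agent.H612.CollectPoly

/-!
# Locating-dominating coalitions: the reduction
-/

set_option autoImplicit false
set_option linter.unusedSimpArgs false

namespace Q229.LC

open Pool.Agent.NPC Pool.Agent.H622R2

/-- Locating-dominating sets and isomorphisms. -/
theorem ldset_preimage {V W : Type} {G : SimpleGraph V} {H : SimpleGraph W} (e : G ≃g H)
    (D : Set W) : LDSet G (e ⁻¹' D) ↔ LDSet H D := by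
  unfold LDSet
  have h1 : ∀ v, e.symm (e v) = v := fun v => e.symm_apply_apply v
  have h2 : ∀ v, e (e.symm v) = v := fun v => e.apply_symm_apply v
  constructor
  · rintro ⟨h3, h4⟩
    constructor
    · intro v hv
      obtain ⟨w, hw, h5⟩ := h3 (e.symm v) (by rw [Set.mem_preimage, h2]; exact hv)
      refine ⟨e w, hw, ?_⟩
      rw [← e.map_adj_iff, h2] at h5
      exact h5
    · intro u v hu hv huv h
      refine h4 (e.symm u) (e.symm v) (by rw [Set.mem_preimage, h2]; exact hu)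
        (by rw [Set.mem_preimage, h2]; exact hv) (fun h6 => huv (e.symm.injective h6)) ?_
      ext w
      have h7 : e w ∈ H.neighborSet u ∩ D ↔ e w ∈ H.neighborSet v ∩ D := by rw [h]
      simp only [Set.mem_inter_iff, SimpleGraph.mem_neighborSet, Set.mem_preimage] at h7 ⊢
      rw [← e.map_adj_iff, ← e.map_adj_iff, h2, h2]
      exact h7
  · rintro ⟨h3, h4⟩
    constructor
    · intro v hv
      obtain ⟨w, hw, h5⟩ := h3 (e v) hv
      refine ⟨e.symm w, by rw [Set.mem_preimage, h2]; exact hw, ?_⟩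
      rw [← e.map_adj_iff, h2]
      exact h5
    · intro u v hu hv huv h
      refine h4 (e u) (e v) hu hv (fun h6 => huv (e.injective h6)) ?_
      ext w
      have h7 : e.symm w ∈ G.neighborSet u ∩ e ⁻¹' D ↔ e.symm w ∈ G.neighborSet v ∩ e ⁻¹' D := by
        rw [h]
      simp only [Set.mem_inter_iff, SimpleGraph.mem_neighborSet, Set.mem_preimage, h2] at h7 ⊢
      rw [← e.map_adj_iff, ← e.map_adj_iff, h2] at h7
      exact h7

theorem exists_of_iso {V W : Type} {G : SimpleGraph V} {H : SimpleGraph W} (e : G ≃g H) {k : ℕ}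
    (h : ∃ P, LDCPartition H P ∧ k ≤ P.ncard) : ∃ P, LDCPartition G P ∧ k ≤ P.ncard := by
  obtain ⟨P, ⟨⟨h1, h2⟩, h3, h4⟩, h5⟩ := h
  have hinj : Function.Injective (fun X : Set W => e ⁻¹' X) := e.surjective.preimage_injective
  refine ⟨(fun X : Set W => e ⁻¹' X) '' P, ⟨⟨?_, ?_⟩, ?_, ?_⟩, ?_⟩
  · rintro ⟨X, hX, h6⟩
    have h7 : X = ∅ := hinj (by simpa using h6)
    rw [h7] at hX
    exact h1 hX
  · intro v
    obtain ⟨X, ⟨hX, hv⟩, hu⟩ := h2 (e v)
    refine ⟨e ⁻¹' X, ⟨⟨X, hX, rfl⟩, hv⟩, ?_⟩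
    rintro Y ⟨⟨X', hX', rfl⟩, hY⟩
    rw [hu X' ⟨hX', hY⟩]
  · rintro Y ⟨X, hX, rfl⟩
    change ¬ LDSet G (e ⁻¹' X)
    rw [ldset_preimage]
    exact h3 X hX
  · rintro Y ⟨X, hX, rfl⟩
    obtain ⟨Z, hZ, hne, hd, h6, h7, h8⟩ := h4 X hX
    refine ⟨e ⁻¹' Z, ⟨Z, hZ, rfl⟩, fun h => hne (hinj h), ?_, ?_, ?_, ?_⟩
    · exact hd.preimage e
    · rw [ldset_preimage]; exact h6
    · rw [ldset_preimage]; exact h7
    · have h9 : (e ⁻¹' X ∪ e ⁻¹' Z : Set V) = e ⁻¹' (X ∪ Z) := rfl
      rw [h9, ldset_preimage]; exact h8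
  · rw [Set.ncard_image_of_injective _ hinj]
    exact h5

open WC648 in
/-- formulas -/
abbrev Fn : Type := List (NV × NV × NV)

open WC648 in
/-- the variables of a formula -/
def vars (φ : Fn) : List NV := (φ.flatMap fun t => [t.1, t.2.1, t.2.2]).dedup

open WC648 in
/-- default variable -/
def v0 : NV := (0, 0, false)

/-- labels -/
abbrev Lab : Type := ℕ × ℕ × ℕ

/-- Does the variable number `i` occur in the clause number `j`? -/
def occ (φ : Fn) (j i : ℕ) : Bool :=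
  decide ((vars φ).getD i v0 ∈ [(φ.getD j (v0, v0, v0)).1, (φ.getD j (v0, v0, v0)).2.1,
    (φ.getD j (v0, v0, v0)).2.2])

def r1 (x y : Lab) : Bool :=
  decide (x.1 = 0) && (decide (y.1 = 0) && (decide (x.2.1 = y.2.1) &&
    (decide (x.2.2 = 0) && decide (y.2.2 = 1))))
def r2 (φ : Fn) (x y : Lab) : Bool :=
  decide (x.1 = 0) && (decide (y.1 = 1) && (decide (x.2.2 = 0) && (decide (y.2.2 / 2 = 1) &&
    occ φ y.2.1 x.2.1)))
def r3 (x y : Lab) : Bool :=
  decide (x.1 = 0) && (decide (y.1 = 2) && (decide (x.2.2 = 0) && decide (y.2.2 = 1)))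
def r4 (x y : Lab) : Bool :=
  decide (x.1 = 1) && (decide (y.1 = 1) && (decide (x.2.1 = y.2.1) &&
    (decide (x.2.2 / 2 = 0) && !decide (y.2.2 / 2 = 0))))
def r5 (x y : Lab) : Bool :=
  decide (x.1 = 2) && (decide (y.1 = 2) &&
    ((decide (x.2.1 = y.2.1) && !decide (x.2.2 = y.2.2)) ||
    (decide (x.2.2 = 1) && (decide (y.2.2 = 1) && !decide (x.2.1 = y.2.1)))))
def r6 (x y : Lab) : Bool :=
  decide (x.1 = 2) && (decide (y.1 = 3) && (decide (x.2.1 = y.2.1) &&
    decide (x.2.2 = y.2.2 / 2 + 1)))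
def r7 (x y : Lab) : Bool :=
  decide (x.1 = 3) && (decide (y.1 = 3) && (decide (x.2.1 = y.2.1) &&
    (decide (x.2.2 / 2 = y.2.2 / 2) && !decide (x.2.2 = y.2.2))))

/-- the edges -/
def adjL (φ : Fn) (x y : Lab) : Bool :=
  r1 x y || (r2 φ x y || (r3 x y || (r4 x y || (r5 x y || (r6 x y || r7 x y)))))

/-- the labels -/
def vs (φ : Fn) : List Lab :=
  block 0 (vars φ).length 2 ++ (block 1 φ.length 6 ++ (block 2 2 5 ++ block 3 2 8))

/-- the reduction -/
def red (φ : Fn) : List (List Bool) := mat (vs φ) (adjL φ)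

/-- the label of a vertex -/
def lab (n m : ℕ) : Vt n m → Lab
  | .co i b => (0, i, b.toNat)
  | .cl j r b => (1, j, 2 * r.1 + b.toNat)
  | .fr g i => (2, g.toNat, i)
  | .tr g i b => (3, g.toNat, 2 * i.1 + b.toNat)

theorem tn {a b : Bool} (h : a.toNat = b.toNat) : a = b := by
  cases a <;> cases b <;> simp_all

theorem lab_injective (n m : ℕ) : Function.Injective (lab n m) := by
  rintro (⟨i, b⟩ | ⟨j, r, b⟩ | ⟨g, i⟩ | ⟨g, i, b⟩) (⟨i', b'⟩ | ⟨j', r', b'⟩ | ⟨g', i'⟩ |
    ⟨g', i', b'⟩) h <;>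
    simp only [lab, Prod.mk.injEq, false_and, zero_ne_one, one_ne_zero, and_false,
      OfNat.ofNat_ne_zero, OfNat.zero_ne_ofNat, OfNat.ofNat_ne_one, OfNat.one_ne_ofNat,
      Nat.reduceEqDiff, true_and, and_true] at h
  · rw [Fin.ext h.1, tn h.2]
  · have h3 := Bool.toNat_le b
    have h4 := Bool.toNat_le b'
    have h5 : r = r' := Fin.ext (by omega)
    have h6 : b = b' := tn (by omega)
    rw [Fin.ext h.1, h5, h6]
  · rw [tn h.1, Fin.ext h.2]
  · have h3 := Bool.toNat_le b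
    have h4 := Bool.toNat_le b'
    have h5 : i = i' := Fin.ext (by omega)
    have h6 : b = b' := tn (by omega)
    rw [tn h.1, h5, h6]

theorem vs_nodup (φ : Fn) : (vs φ).Nodup := by
  unfold vs
  refine block_append_nodup (block_append_nodup (block_append_nodup (block_nodup _ _ _) ?_) ?_)
    ?_ <;>
  · intro z hz
    simp only [List.mem_append, mem_block] at hz
    omega

theorem bool_of_lt {k : ℕ} (h : k < 2) : (decide (k = 1)).toNat = k := by
  have : k = 0 ∨ k = 1 := by omega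
  rcases this with rfl | rfl <;> rfl

theorem mem_vs (φ : Fn) (z : Lab) : z ∈ vs φ ↔
    ∃ x, lab (vars φ).length φ.length x = z := by
  unfold vs
  simp only [List.mem_append, mem_block]
  obtain ⟨t, i, k⟩ := z
  constructor
  · rintro (⟨h1, h2, h3⟩ | ⟨h1, h2, h3⟩ | ⟨h1, h2, h3⟩ | ⟨h1, h2, h3⟩) <;>
      simp only at h1 h2 h3 <;> subst h1
    · refine ⟨.co ⟨i, h2⟩ (decide (k = 1)), ?_⟩
      simp only [lab, bool_of_lt h3]
    · refine ⟨.cl ⟨i, h2⟩ ⟨k / 2, by omega⟩ (decide (k % 2 = 1)), ?_⟩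
      have h4 : 2 * (k / 2) + k % 2 = k := by omega
      simp only [lab, bool_of_lt (Nat.mod_lt k (by norm_num)), h4]
    · refine ⟨.fr (decide (i = 1)) ⟨k, h3⟩, ?_⟩
      simp only [lab, bool_of_lt h2]
    · refine ⟨.tr (decide (i = 1)) ⟨k / 2, by omega⟩ (decide (k % 2 = 1)), ?_⟩
      have h4 : 2 * (k / 2) + k % 2 = k := by omega
      simp only [lab, bool_of_lt h2, bool_of_lt (Nat.mod_lt k (by norm_num)), h4]
  · rintro ⟨⟨i, b⟩ | ⟨j, r, b⟩ | ⟨g, i⟩ | ⟨g, i, b⟩, h⟩ <;>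
      simp only [lab, Prod.mk.injEq] at h <;> obtain ⟨rfl, rfl, rfl⟩ := h
    · have := Bool.toNat_le b
      left
      exact ⟨rfl, i.2, by dsimp only; omega⟩
    · have := Bool.toNat_le b
      right; left
      exact ⟨rfl, j.2, by dsimp only; omega⟩
    · have := Bool.toNat_le g
      right; right; left
      exact ⟨rfl, by dsimp only; omega, i.2⟩
    · have := Bool.toNat_le b
      have := Bool.toNat_le g
      right; right; right
      exact ⟨rfl, by dsimp only; omega, by dsimp only; omega⟩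

/-- occurrences -/
def cc (φ : Fn) (j : Fin φ.length) (i : Fin (vars φ).length) : Bool := occ φ j.1 i.1

theorem adjL_lab (φ : Fn) (x y : Vt (vars φ).length φ.length) :
    E (cc φ) x y ↔ adjL φ (lab _ _ x) (lab _ _ y) = true := by
  have k0 : ∀ a : Bool, a.toNat = 0 ↔ a = false := by decide
  have k0' : ∀ a : Bool, a.toNat = 1 ↔ a = true := by decide
  have k1 : ∀ (x : ℕ) (a : Bool), (2 * x + a.toNat) / 2 = x := by
    intro x a
    have := Bool.toNat_le a
    omega
  have k2 : ∀ a b : Bool, a.toNat = b.toNat ↔ a = b := by decide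
  have k3 : ∀ (i i' : Fin 4) (b b' : Bool),
      (i.1 = i'.1 ∧ ¬ (2 * i.1 + b.toNat = 2 * i'.1 + b'.toNat)) ↔ (i = i' ∧ b ≠ b') := by
    intro i i' b b'
    constructor
    · rintro ⟨h1, h2⟩
      refine ⟨Fin.ext h1, ?_⟩
      rintro rfl
      exact h2 (by rw [h1])
    · rintro ⟨rfl, h⟩
      refine ⟨rfl, fun h1 => h (tn ?_)⟩
      omega
  have k4 : ∀ r : Fin 3, r.1 = 0 ↔ r = 0 := by decide
  have k5 : ∀ r : Fin 3, r.1 = 1 ↔ r = 1 := by decide
  have k6 : ∀ r : Fin 5, r.1 = 1 ↔ r = 1 := by decide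
  have k7 : ∀ (r : Fin 5) (s : Fin 4), r.1 = s.1 + 1 ↔ r = s.succ := by decide
  rcases x with ⟨i, b⟩ | ⟨j, r, b⟩ | ⟨g, i⟩ | ⟨g, i, b⟩ <;>
    rcases y with ⟨i', b'⟩ | ⟨j', r', b'⟩ | ⟨g', i'⟩ | ⟨g', i', b'⟩ <;>
    simp only [adjL, r1, r2, r3, r4, r5, r6, r7, lab, E, Prod.mk.injEq, false_and, zero_ne_one,
      one_ne_zero, OfNat.ofNat_ne_zero, OfNat.zero_ne_ofNat, OfNat.ofNat_ne_one,
      OfNat.one_ne_ofNat, Nat.reduceEqDiff, decide_true, decide_false,
      Bool.false_and, Bool.and_false, Bool.true_and, Bool.false_or, Bool.or_false,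
      Bool.false_eq_true, List.mem_cons, List.not_mem_nil, or_false, or_self, and_false,
      or_true, and_true, Bool.or_eq_true, Bool.and_eq_true, decide_eq_true_eq, Fin.ext_iff,
      Bool.not_eq_true', decide_eq_false_iff_not, k0, k0', k1, k2, cc]
  · exact Iff.rfl
  · exact Iff.rfl
  · rw [Ne, Fin.ext_iff]
    exact Iff.rfl
  · rw [Ne, Fin.ext_iff]
    exact Iff.rfl
  · exact Iff.rfl
  · refine and_congr_right fun _ => and_congr_right fun h => ?_
    rw [h]
    have h1 := Bool.toNat_le b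
    have h2 := Bool.toNat_le b'
    rw [not_iff_not, ← k2]
    omega

theorem red_iso (φ : Fn) : Nonempty (matGraph (red φ) ≃g Gr (cc φ)) := by
  refine matGraph_iso (vs φ) (vs_nodup φ) (adjL φ) (Gr (cc φ))
    (lab (vars φ).length φ.length) (lab_injective _ _) (mem_vs φ) ?_
  intro x y
  rw [← adjL_lab, ← adjL_lab]
  exact Iff.rfl

open WC648 in
theorem nae_iff (φ : Fn) : NAE φ ↔ ∃ τ : Fin (vars φ).length → Bool,
    ∀ j, (∃ i, cc φ j i = true ∧ τ i = true) ∧ (∃ i, cc φ j i = true ∧ τ i = false) := by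
  have hocc : ∀ (j : Fin φ.length) (i : Fin (vars φ).length), cc φ j i = true ↔
      (vars φ)[i] = φ[j].1 ∨ (vars φ)[i] = φ[j].2.1 ∨ (vars φ)[i] = φ[j].2.2 := by
    intro j i
    unfold cc occ
    rw [List.getD_eq_getElem _ _ i.2, List.getD_eq_getElem _ _ j.2]
    simp only [List.mem_cons, List.not_mem_nil, or_false, decide_eq_true_eq, Fin.getElem_fin]
  have hmem : ∀ (j : Fin φ.length) (x : NV), x = φ[j].1 ∨ x = φ[j].2.1 ∨ x = φ[j].2.2 →
      ∃ i : Fin (vars φ).length, (vars φ)[i] = x := by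
    intro j x hx
    have h1 : x ∈ vars φ := by
      unfold vars
      rw [List.mem_dedup, List.mem_flatMap]
      refine ⟨φ[j], List.getElem_mem _, ?_⟩
      simpa only [List.mem_cons, List.not_mem_nil, or_false] using hx
    obtain ⟨i, hi, h2⟩ := List.getElem_of_mem h1
    exact ⟨⟨i, hi⟩, h2⟩
  constructor
  · rintro ⟨τ, hτ⟩
    refine ⟨fun i => τ (vars φ)[i], fun j => ?_⟩
    have h1 := hτ φ[j] (List.getElem_mem _)
    have h2 : ∀ a b c : Bool, ¬ (a = b ∧ b = c) →
        (a = true ∨ b = true ∨ c = true) ∧ (a = false ∨ b = false ∨ c = false) := by decide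
    obtain ⟨h3, h4⟩ := h2 _ _ _ h1
    have h5 : ∀ v : Bool, (τ φ[j].1 = v ∨ τ φ[j].2.1 = v ∨ τ φ[j].2.2 = v) →
        ∃ i, cc φ j i = true ∧ τ (vars φ)[i] = v := by
      rintro v (h | h | h)
      · obtain ⟨i, hi⟩ := hmem j _ (Or.inl rfl)
        exact ⟨i, (hocc j i).2 (Or.inl hi), by rw [hi]; exact h⟩
      · obtain ⟨i, hi⟩ := hmem j _ (Or.inr (Or.inl rfl))
        exact ⟨i, (hocc j i).2 (Or.inr (Or.inl hi)), by rw [hi]; exact h⟩
      · obtain ⟨i, hi⟩ := hmem j _ (Or.inr (Or.inr rfl))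
        exact ⟨i, (hocc j i).2 (Or.inr (Or.inr hi)), by rw [hi]; exact h⟩
    exact ⟨h5 true h3, h5 false h4⟩
  · rintro ⟨τ, hτ⟩
    classical
    have hinj : ∀ i i' : Fin (vars φ).length, (vars φ)[i] = (vars φ)[i'] → i = i' := by
      intro i i' h
      have hnd : (vars φ).Nodup := List.nodup_dedup _
      exact hnd.injective_get h
    refine ⟨fun x => if h : ∃ i : Fin (vars φ).length, (vars φ)[i] = x then τ h.choose else false,
      fun t ht => ?_⟩
    obtain ⟨j, hj, rfl⟩ := List.getElem_of_mem ht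
    have h1 : ∀ x, x = φ[j].1 ∨ x = φ[j].2.1 ∨ x = φ[j].2.2 → ∀ i : Fin (vars φ).length,
        (vars φ)[i] = x → (if h : ∃ i : Fin (vars φ).length, (vars φ)[i] = x then τ h.choose
          else false) = τ i := by
      intro x _ i hi
      have h2 : ∃ i : Fin (vars φ).length, (vars φ)[i] = x := ⟨i, hi⟩
      rw [dif_pos h2]
      congr 1
      exact hinj _ _ (h2.choose_spec.trans hi.symm)
    obtain ⟨⟨i, hi, hi'⟩, ⟨k, hk, hk'⟩⟩ := hτ ⟨j, hj⟩
    rw [hocc] at hi hk
    obtain ⟨a, ha⟩ := hmem ⟨j, hj⟩ _ (Or.inl rfl)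
    obtain ⟨b, hb⟩ := hmem ⟨j, hj⟩ _ (Or.inr (Or.inl rfl))
    obtain ⟨c, hc⟩ := hmem ⟨j, hj⟩ _ (Or.inr (Or.inr rfl))
    beta_reduce
    rw [h1 _ (Or.inl rfl) a ha, h1 _ (Or.inr (Or.inl rfl)) b hb, h1 _ (Or.inr (Or.inr rfl)) c hc]
    have h3 : ∀ l : Fin (vars φ).length, ((vars φ)[l] = φ[(⟨j, hj⟩ : Fin φ.length)].1 ∨
        (vars φ)[l] = φ[(⟨j, hj⟩ : Fin φ.length)].2.1 ∨
        (vars φ)[l] = φ[(⟨j, hj⟩ : Fin φ.length)].2.2) → l = a ∨ l = b ∨ l = c := by
      rintro l (h | h | h)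
      · exact Or.inl (hinj _ _ (h.trans ha.symm))
      · exact Or.inr (Or.inl (hinj _ _ (h.trans hb.symm)))
      · exact Or.inr (Or.inr (hinj _ _ (h.trans hc.symm)))
    rintro ⟨h4, h5⟩
    have h6 : τ i = τ b := by
      rcases h3 i hi with rfl | rfl | rfl
      · exact h4
      · rfl
      · exact h5.symm
    have h7 : τ k = τ b := by
      rcases h3 k hk with rfl | rfl | rfl
      · exact h4
      · rfl
      · exact h5.symm
    rw [hi'] at h6
    rw [hk'] at h7
    exact Bool.noConfusion (h6.trans h7.symm)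

theorem cc_card (φ : Fn) (j : Fin φ.length) :
    (Finset.univ.filter fun i => cc φ j i = true).card ≤ 3 := by
  classical
  have hnd : (vars φ).Nodup := List.nodup_dedup _
  have h1 : ((Finset.univ.filter fun i => cc φ j i = true).image fun i => (vars φ)[i]) ⊆
      {φ[j].1, φ[j].2.1, φ[j].2.2} := by
    intro x hx
    simp only [Finset.mem_image, Finset.mem_filter, Finset.mem_univ, true_and] at hx
    obtain ⟨i, hi, rfl⟩ := hx
    unfold cc occ at hi
    rw [List.getD_eq_getElem _ _ i.2, List.getD_eq_getElem _ _ j.2] at hi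
    simp only [List.mem_cons, List.not_mem_nil, or_false, decide_eq_true_eq] at hi
    simpa using hi
  have h2 := Finset.card_le_card h1
  have h3 : Function.Injective fun i : Fin (vars φ).length => (vars φ)[i] :=
    fun i i' h => hnd.injective_get h
  rw [Finset.card_image_of_injective _ h3] at h2
  exact h2.trans Finset.card_le_three

theorem cc_nonempty (φ : Fn) (j : Fin φ.length) : ∃ i, cc φ j i = true := by
  have h1 : φ[j].1 ∈ vars φ := by
    unfold vars
    rw [List.mem_dedup, List.mem_flatMap]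
    exact ⟨φ[j], List.getElem_mem _, by simp⟩
  obtain ⟨i, hi, h2⟩ := List.getElem_of_mem h1
  refine ⟨⟨i, hi⟩, ?_⟩
  unfold cc occ
  rw [List.getD_eq_getElem _ _ hi, List.getD_eq_getElem _ _ j.2]
  simp only [List.mem_cons, List.not_mem_nil, or_false, decide_eq_true_eq]
  exact Or.inl h2

theorem red_connected (φ : Fn) : (matGraph (red φ)).Connected := by
  obtain ⟨e⟩ := red_iso φ
  rw [e.connected_iff]
  exact connected (cc φ) (cc_nonempty φ)

open WC648 in
theorem red_iff (φ : Fn) : NAE φ ↔ 10 ≤ CL (matGraph (red φ)) := by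
  obtain ⟨e⟩ := red_iso φ
  rw [le_CL_iff _ _ (by norm_num), nae_iff]
  constructor
  · rintro ⟨τ, hτ⟩
    exact exists_of_iso e (complete (cc φ) hτ)
  · intro h
    obtain ⟨P, hP, h10⟩ := exists_of_iso e.symm h
    exact sound (cc φ) (cc_card φ) hP h10

theorem red_poly : Poly red := by
  have hv : Poly vars := by
    unfold vars
    refine H612.poly_dedup ?_
    fun_prop
  have h0 : Poly vs := Poly.append (block_poly 0 (UPoly.length hv) (UPoly.const 2))
    (Poly.append (block_poly 1 (UPoly.length Poly.id) (UPoly.const 6)) (Poly.append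
      (block_poly 2 (UPoly.const 2) (UPoly.const 5)) (block_poly 3 (UPoly.const 2)
        (UPoly.const 8))))
  have hocc : Poly (fun p : Fn × (ℕ × ℕ) => occ p.1 p.2.1 p.2.2) := by
    have hv' : Poly (fun p : Fn × (ℕ × ℕ) => vars p.1) := hv.comp (Poly.fst Poly.id)
    unfold occ
    fun_prop
  refine mat_poly (adj := fun (φ : Fn) => adjL φ) h0 ?_
  unfold adjL r1 r2 r3 r4 r5 r6 r7
  have h2 : Poly (fun q : Fn × (Lab × Lab) => occ q.1 q.2.2.2.1 q.2.1.2.1) :=
    hocc.comp (show Poly (fun q : Fn × (Lab × Lab) => (q.1, (q.2.2.2.1, q.2.1.2.1))) by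
      fun_prop)
  fun_prop

open WC648 in
theorem hard : HardPr (fun M => (matGraph M).Connected) (fun M => 10 ≤ CL (matGraph M)) :=
  hardI_NAE.toHardPr.trans red_poly (fun φ _ => red_connected φ) (fun φ _ => red_iff φ)

end Q229.LC
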