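import Pool.Agent.Q292.LC.Stm4

/-! Project LC (helper292), lemma job SEQ. -/

set_option autoImplicit false

namespace Pool.Agent.Q229.LC.Seq

open Q292.LC

/-- `(1 + ρ) ^ (2 / d) ≥ 1 + ρ / d` for `0 ≤ ρ ≤ 1` -/
theorem bern (d : ℕ) (hd : 1 ≤ d) (ρ : ℝ) (h0 : 0 ≤ ρ) (h1 : ρ ≤ 1) :
    1 + ρ / d ≤ (1 + ρ) ^ (2 / d : ℝ) := by
  have hd0 : (0 : ℝ) < d := by exact_mod_cast hd
  have e1 : (1 + ρ / (2 * d)) ^ d ≤ 1 + ρ := by
    have a1 : 1 + ρ / (2 * d) ≤ Real.exp (ρ / (2 * d)) := by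
      rw [add_comm]
      exact Real.add_one_le_exp _
    have a2 : (1 + ρ / (2 * d)) ^ d ≤ Real.exp (ρ / (2 * d)) ^ d :=
      pow_le_pow_left₀ (by positivity) a1 d
    rw [← Real.exp_nat_mul] at a2
    have a3 : (d : ℝ) * (ρ / (2 * d)) = ρ / 2 := by field_simp
    rw [a3] at a2
    refine a2.trans ?_
    have a4 : Real.exp (ρ / 2) * Real.exp (-(ρ / 2)) = 1 := by
      rw [← Real.exp_add, add_neg_cancel, Real.exp_zero]
    have a5 : 1 - ρ / 2 ≤ Real.exp (-(ρ / 2)) := by
      have := Real.add_one_le_exp (-(ρ / 2))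
      linarith
    have a6 : 0 < Real.exp (ρ / 2) := Real.exp_pos _
    by_contra hcon
    push Not at hcon
    have a7 : (1 + ρ) * (1 - ρ / 2) < 1 := by
      calc (1 + ρ) * (1 - ρ / 2) < Real.exp (ρ / 2) * (1 - ρ / 2) :=
            mul_lt_mul_of_pos_right hcon (by linarith)
        _ ≤ Real.exp (ρ / 2) * Real.exp (-(ρ / 2)) := mul_le_mul_of_nonneg_left a5 a6.le
        _ = 1 := a4
    nlinarith
  have e2 : (1 + ρ / (2 * d)) ^ 2 ≤ (1 + ρ) ^ (2 / d : ℝ) := by
    have b1 : ((1 + ρ / (2 * d)) ^ d) ^ (2 / d : ℝ) ≤ (1 + ρ) ^ (2 / d : ℝ) :=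
      Real.rpow_le_rpow (by positivity) e1 (by positivity)
    have b2 : ((1 + ρ / (2 * d)) ^ d) ^ (2 / d : ℝ) = (1 + ρ / (2 * d)) ^ 2 := by
      rw [← Real.rpow_natCast, ← Real.rpow_mul (by positivity)]
      have : (d : ℝ) * (2 / d) = 2 := by field_simp
      rw [this]
      norm_num
    rw [b2] at b1
    exact b1
  refine le_trans ?_ e2
  have : (1 + ρ / (2 * d)) ^ 2 = 1 + ρ / d + (ρ / (2 * d)) ^ 2 := by
    field_simp
    ring
  rw [this]
  nlinarith [sq_nonneg (ρ / (2 * d))]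

/-- one step of the recursion in terms of `b = a ^ (- 2 / d)` -/
theorem step (d : ℕ) (hd : 1 ≤ d) (c u x y z : ℝ) (p : ℝ) (hc : 0 < c) (hu : 1 ≤ u)
    (hp : 3 ≤ c * p) (hz : 0 < z) (hzy : z ≤ y) (hyx : y ≤ x)
    (h : z < x / 4 ∨ c * min (p * z) (u * z ^ (1 + 2 / d : ℝ)) ≤ y - z) :
    (1 + 1 / d) * x ^ (-(2 / d : ℝ)) ≤ z ^ (-(2 / d : ℝ)) ∨
      x ^ (-(2 / d : ℝ)) + c / (2 * d) * u ≤ z ^ (-(2 / d : ℝ)) := by
  have hd0 : (0 : ℝ) < d := by exact_mod_cast hd
  have hy0 : 0 < y := hz.trans_le hzy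
  have hx0 : 0 < x := hy0.trans_le hyx
  have hneg : -(2 / d : ℝ) ≤ 0 := by
    have : (0 : ℝ) ≤ 2 / d := by positivity
    linarith
  have hxy : x ^ (-(2 / d : ℝ)) ≤ y ^ (-(2 / d : ℝ)) :=
    Real.rpow_le_rpow_of_nonpos hy0 hyx hneg
  have hbx : 0 < x ^ (-(2 / d : ℝ)) := Real.rpow_pos_of_pos hx0 _
  have hby : 0 < y ^ (-(2 / d : ℝ)) := Real.rpow_pos_of_pos hy0 _
  have hbz : 0 < z ^ (-(2 / d : ℝ)) := Real.rpow_pos_of_pos hz _
  -- a decrease by a factor 1 + ρ
  have dec : ∀ w ρ : ℝ, 0 < w → 0 ≤ ρ → ρ ≤ 1 → (1 + ρ) * z ≤ w →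
      (1 + ρ / d) * w ^ (-(2 / d : ℝ)) ≤ z ^ (-(2 / d : ℝ)) := by
    intro w ρ hw h0 h1 hle
    have e1 : w ^ (-(2 / d : ℝ)) ≤ ((1 + ρ) * z) ^ (-(2 / d : ℝ)) :=
      Real.rpow_le_rpow_of_nonpos (by positivity) hle hneg
    rw [Real.mul_rpow (by positivity) hz.le] at e1
    have e2 := bern d hd ρ h0 h1
    have e3 : 0 < (1 + ρ) ^ (2 / d : ℝ) := Real.rpow_pos_of_pos (by positivity) _
    have e4 : (1 + ρ) ^ (2 / d : ℝ) * (1 + ρ) ^ (-(2 / d : ℝ)) = 1 := by
      rw [← Real.rpow_add (by positivity), add_neg_cancel, Real.rpow_zero]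
    calc (1 + ρ / d) * w ^ (-(2 / d : ℝ))
        ≤ (1 + ρ) ^ (2 / d : ℝ) * ((1 + ρ) ^ (-(2 / d : ℝ)) * z ^ (-(2 / d : ℝ))) :=
          mul_le_mul e2 e1 (Real.rpow_nonneg hw.le _) e3.le
      _ = z ^ (-(2 / d : ℝ)) := by rw [← mul_assoc, e4, one_mul]
  rcases h with h | h
  · left
    exact dec x 1 hx0 (by norm_num) le_rfl (by linarith)
  · rcases min_cases (p * z) (u * z ^ (1 + 2 / d : ℝ)) with ⟨hm, _⟩ | ⟨hm, _⟩
    · left
      rw [hm] at h
      refine dec x 1 hx0 (by norm_num) le_rfl ?_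
      have : 3 * z ≤ c * (p * z) := by
        rw [← mul_assoc]
        exact mul_le_mul_of_nonneg_right hp hz.le
      linarith
    · rw [hm] at h
      have e1 : z ^ (1 + 2 / d : ℝ) = z * z ^ (2 / d : ℝ) := by
        rw [Real.rpow_add hz, Real.rpow_one]
      have e2 : z ^ (2 / d : ℝ) * z ^ (-(2 / d : ℝ)) = 1 := by
        rw [← Real.rpow_add hz, add_neg_cancel, Real.rpow_zero]
      set bz := z ^ (-(2 / d : ℝ)) with hbzd
      set q := z ^ (2 / d : ℝ) with hq
      have hq0 : 0 < q := Real.rpow_pos_of_pos hz _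
      set ρ := c * u * q with hρ
      have hρ0 : 0 < ρ := by positivity
      have e3 : (1 + ρ) * z ≤ y := by
        rw [e1] at h
        have : c * (u * (z * q)) = ρ * z := by rw [hρ]; ring
        rw [this] at h
        linarith
      by_cases hρ1 : 1 ≤ ρ
      · left
        refine (mul_le_mul_of_nonneg_left hxy (by positivity)).trans ?_
        exact dec y 1 hy0 (by norm_num) le_rfl (le_trans (by nlinarith) e3)
      · push Not at hρ1
        have e4 := dec y ρ hy0 hρ0.le hρ1.le e3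
        by_cases h2 : 2 * y ^ (-(2 / d : ℝ)) ≤ bz
        · left
          have e5 : (1 : ℝ) / d ≤ 1 := by
            rw [div_le_one hd0]
            exact_mod_cast hd
          calc (1 + 1 / d) * x ^ (-(2 / d : ℝ)) ≤ 2 * x ^ (-(2 / d : ℝ)) :=
                mul_le_mul_of_nonneg_right (by linarith) hbx.le
            _ ≤ 2 * y ^ (-(2 / d : ℝ)) := by linarith
            _ ≤ bz := h2
        · right
          push Not at h2
          have e5 : c / (2 * d) * u ≤ ρ / d * y ^ (-(2 / d : ℝ)) := by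
            have e6 : ρ * bz = c * u := by
              rw [hρ, mul_assoc, e2, mul_one]
            have e7 : ρ * bz ≤ ρ * (2 * y ^ (-(2 / d : ℝ))) :=
              mul_le_mul_of_nonneg_left h2.le hρ0.le
            have e8 : c / (2 * d) * u = c * u / (2 * d) := by ring
            have e9 : ρ / d * y ^ (-(2 / d : ℝ)) = ρ * (2 * y ^ (-(2 / d : ℝ))) / (2 * d) := by
              field_simp
            rw [e8, e9, ← e6]
            exact div_le_div_of_nonneg_right e7 (by positivity)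
          have e6 : (1 + ρ / d) * y ^ (-(2 / d : ℝ)) =
              y ^ (-(2 / d : ℝ)) + ρ / d * y ^ (-(2 / d : ℝ)) := by ring
          rw [e6] at e4
          linarith

/-- growth of a sequence -/
theorem grow (κ g u : ℝ) (hκ : 0 < κ) (hκg : κ ≤ g) (hu : 1 ≤ u) (e : ℕ → ℝ) (N j₀ : ℕ)
    (he1 : 1 ≤ e 0) (hj : j₀ ≤ N) (hj₀ : u ≤ (1 + κ) ^ j₀)
    (he : ∀ j < N, (1 + g) * e j ≤ e (j + 1) ∨ e j + κ * u ≤ e (j + 1)) :
    e 0 + κ * u * (N - j₀ : ℝ) ≤ e N := by
  have hpos : ∀ j ≤ N, 1 ≤ e j ∧ e 0 ≤ e j := by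
    intro j
    induction j with
    | zero => exact fun _ => ⟨he1, le_rfl⟩
    | succ j ih =>
      intro hj'
      have h1 := ih (by omega)
      have h2 : 0 < κ * u := by positivity
      rcases he j (by omega) with h | h
      · have : 0 ≤ g * e j := by
          have := hκ.le.trans hκg
          nlinarith [h1.1]
        exact ⟨by nlinarith, by nlinarith⟩
      · exact ⟨by linarith [h1.1], by linarith [h1.2]⟩
  have h1 : ∀ j ≤ N, u ≤ e j ∨ (1 + κ) ^ j ≤ e j := by
    intro j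
    induction j with
    | zero => exact fun _ => Or.inr (by simpa using he1)
    | succ j ih =>
      intro hj'
      have hp := (hpos j (by omega)).1
      by_cases hue : u ≤ e j
      · left
        rcases he j (by omega) with h | h
        · have : 0 ≤ g * e j := by
            have := hκ.le.trans hκg
            nlinarith
          nlinarith
        · have h2 : 0 < κ * u := by positivity
          linarith
      · right
        rcases ih (by omega) with h2 | h2
        · exact absurd h2 hue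
        · push Not at hue
          have h3 : (1 + κ) * e j ≤ e (j + 1) := by
            rcases he j (by omega) with h | h
            · have : κ * e j ≤ g * e j := mul_le_mul_of_nonneg_right hκg (by linarith)
              linarith
            · have : κ * e j ≤ κ * u := mul_le_mul_of_nonneg_left hue.le hκ.le
              linarith
          rw [pow_succ, mul_comm]
          exact (mul_le_mul_of_nonneg_left h2 (by linarith)).trans h3
  have h2 : ∀ i, j₀ + i ≤ N → u ≤ e (j₀ + i) ∧ e 0 + κ * u * i ≤ e (j₀ + i) := by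
    intro i
    induction i with
    | zero =>
      intro hi
      refine ⟨?_, ?_⟩
      · rcases h1 j₀ hj with h | h
        · exact h
        · exact hj₀.trans h
      · rw [Nat.cast_zero, mul_zero, add_zero]
        exact (hpos j₀ hj).2
    | succ i ih =>
      intro hi
      obtain ⟨h3, h4⟩ := ih (by omega)
      have h5 : e (j₀ + i) + κ * u ≤ e (j₀ + (i + 1)) := by
        rcases he (j₀ + i) (by omega) with h | h
        · have a1 : κ * u ≤ g * e (j₀ + i) :=
            mul_le_mul hκg h3 (by linarith) (hκ.le.trans hκg)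
          have a2 : e (j₀ + i) + g * e (j₀ + i) ≤ e (j₀ + i + 1) := by linarith
          rw [← add_assoc]
          linarith
        · rw [← add_assoc]
          exact h
      have h6 : 0 < κ * u := by positivity
      refine ⟨by linarith, ?_⟩
      push_cast
      linarith
  have h3 := (h2 (N - j₀) (by omega)).2
  rw [Nat.add_sub_cancel' hj, Nat.cast_sub hj] at h3
  exact h3

theorem seq : S_SEQ := by
  intro d c hd hc hc1
  have hd0 : (0 : ℝ) < d := by exact_mod_cast hd
  have hd1 : (1 : ℝ) ≤ d := by exact_mod_cast hd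
  set κ : ℝ := c / (2 * d) with hκ
  have hκ0 : 0 < κ := by positivity
  have hκg : κ ≤ 1 / d := by
    rw [hκ, div_le_div_iff₀ (by positivity) hd0]
    nlinarith
  have hlog : 0 < Real.log (1 + κ) := Real.log_pos (by linarith)
  refine ⟨κ / 4, 8 / Real.log (1 + κ) + 16, by positivity, ?_, ?_⟩
  · have : 0 < 8 / Real.log (1 + κ) := by positivity
    linarith
  intro a n u p m₀ hu hp hm₀ ha hmono ha1 hn hrec
  by_cases hfin : a n ≤ m₀
  · exact hfin.trans (le_max_left _ _)
  push Not at hfin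
  refine le_trans ?_ (le_max_right _ _)
  have hanti : Antitone a := antitone_nat_of_succ_le hmono
  have hpos : ∀ k ≤ n, 0 < a k := fun k hk => (hm₀.trans_lt hfin).trans_le (hanti hk)
  have hnegd : -(2 / d : ℝ) ≤ 0 := by
    have : (0 : ℝ) ≤ 2 / d := by positivity
    linarith
  have hlu : 0 ≤ Real.log (u + 1) := Real.log_nonneg (by linarith)
  -- the number of steps needed to reach `u`
  set j₀ : ℕ := ⌈Real.log (u + 1) / Real.log (1 + κ)⌉₊ with hj₀
  have hj1 : u ≤ (1 + κ) ^ j₀ := by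
    have h1 : Real.log (u + 1) / Real.log (1 + κ) ≤ j₀ := Nat.le_ceil _
    rw [div_le_iff₀ hlog] at h1
    have h2 : Real.log (u + 1) ≤ Real.log ((1 + κ) ^ j₀) := by
      rw [Real.log_pow]
      exact h1
    have h3 := (Real.log_le_log_iff (by linarith) (by positivity)).1 h2
    linarith
  have hj2 : (j₀ : ℝ) < Real.log (u + 1) / Real.log (1 + κ) + 1 :=
    Nat.ceil_lt_add_one (by positivity)
  have hn8 : 8 * ((j₀ : ℝ) + 1) ≤ n := by
    refine le_trans ?_ hn
    have h1 : Real.log (u + 1) / Real.log (1 + κ) = 1 / Real.log (1 + κ) * Real.log (u + 1) := by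
      ring
    have h2 : 0 < 1 / Real.log (1 + κ) := by positivity
    have h3 : 8 / Real.log (1 + κ) = 8 * (1 / Real.log (1 + κ)) := by ring
    rw [h3]
    rw [h1] at hj2
    nlinarith
  have hn8' : 8 * (j₀ + 1) ≤ n := by exact_mod_cast hn8
  -- the recursion
  have hg := grow κ (1 / d) u hκ0 hκg hu (fun j => a (2 * j) ^ (-(2 / d : ℝ))) (n / 2) j₀
    (by
      have : (1 : ℝ) = 1 ^ (-(2 / d : ℝ)) := (Real.one_rpow _).symm
      calc (1 : ℝ) = 1 ^ (-(2 / d : ℝ)) := this
        _ ≤ a (2 * 0) ^ (-(2 / d : ℝ)) :=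
          Real.rpow_le_rpow_of_nonpos (hpos 0 (Nat.zero_le _)) ha1 hnegd)
    (by omega) hj1 (by
      intro j hj
      have hk : 2 * j + 1 < n := by omega
      have h1 := hrec (2 * j + 1) (by omega) hk
      have e1 : 2 * j + 1 - 1 = 2 * j := by omega
      have e2 : 2 * (j + 1) = 2 * j + 1 + 1 := by ring
      rw [e1] at h1
      have h2 := step d hd c u (a (2 * j)) (a (2 * j + 1)) (a (2 * j + 1 + 1)) p hc hu hp
        (hpos _ (by omega)) (hmono _) (hmono _) (by
          rcases h1 with h1 | h1 | h1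
          · exact Or.inl h1
          · exact absurd h1 (not_le.2 (hfin.trans_le (hanti (by omega))))
          · exact Or.inr h1)
      rw [e2]
      exact h2)
  rw [Nat.mul_zero] at hg
  have hlast : a (2 * (n / 2)) ^ (-(2 / d : ℝ)) ≤ a n ^ (-(2 / d : ℝ)) :=
    Real.rpow_le_rpow_of_nonpos (hpos n le_rfl) (hanti (by omega)) hnegd
  have hN : (n : ℝ) / 4 ≤ ((n / 2 : ℕ) : ℝ) - j₀ := by
    have h1 : n ≤ 2 * (n / 2) + 1 := by omega
    have h2 : (n : ℝ) ≤ 2 * ((n / 2 : ℕ) : ℝ) + 1 := by exact_mod_cast h1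
    linarith
  have hb : a 0 ^ (-(2 / d : ℝ)) + κ / 4 * u * n ≤ a n ^ (-(2 / d : ℝ)) := by
    refine le_trans ?_ (hg.trans hlast)
    have h1 : κ * u * ((n : ℝ) / 4) ≤ κ * u * (((n / 2 : ℕ) : ℝ) - j₀) :=
      mul_le_mul_of_nonneg_left hN (by positivity)
    have h2 : κ / 4 * u * n = κ * u * ((n : ℝ) / 4) := by ring
    rw [h2]
    linarith
  have hb0 : 0 < a 0 ^ (-(2 / d : ℝ)) + κ / 4 * u * n := by
    have h1 : 0 < a 0 ^ (-(2 / d : ℝ)) := Real.rpow_pos_of_pos (hpos 0 (Nat.zero_le _)) _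
    positivity
  have hfinal : (a n ^ (-(2 / d : ℝ))) ^ (-(d / 2 : ℝ)) = a n := by
    rw [← Real.rpow_mul (hpos n le_rfl).le]
    have : -(2 / d : ℝ) * -(d / 2 : ℝ) = 1 := by field_simp
    rw [this, Real.rpow_one]
  rw [← hfinal]
  refine Real.rpow_le_rpow_of_nonpos hb0 hb ?_
  have : (0 : ℝ) ≤ d / 2 := by positivity
  linarith

end Pool.Agent.Q229.LC.Seq
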